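import Pool.Agent.Q56.ZO.Lin

/-!
# Algebras of pairs of operators and stable subspaces
-/

set_option autoImplicit false
set_option linter.unusedSectionVars false

open Polynomial Module

namespace Pool.Agent.Q56.XL

open Pool.Agent.Q56.ZO

section Pair

variable {K V M : Type*} [Field K] [AddCommGroup V] [Module K V] [FiniteDimensional K V]
  [AddCommGroup M] [Module K M]

variable {A : Subalgebra K (End K V × End K M)}

/-- **The key property**, relative to two stable subspaces. -/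
theorem exists_key_rel (hnil : ∀ x ∈ A, x.1 = 0 → IsNilpotent x.2) {p : End K V}
    (hp : ∀ x ∈ A, p * x.1 = x.1 * p) {M₀ N₀ : Submodule K M}
    (hM₀ : ∀ x ∈ A, ∀ m ∈ M₀, x.2 m ∈ M₀) (hN₀ : ∀ x ∈ A, ∀ m ∈ N₀, x.2 m ∈ N₀)
    (hlt : ¬ N₀ ≤ M₀) :
    ∃ g ∈ A, g * g = g ∧ ∃ z ∈ N₀, z ∉ M₀ ∧ g.2 z = z ∧
      ∀ x ∈ A, x.2 z ∈ M₀ → LinearMap.trace K V (p * (g.1 * x.1)) = 0 := by
  classical
  let Q : ℕ → Prop := fun n => ∃ g ∈ A, g * g = g ∧ (∃ z ∈ N₀, g.2 z ∉ M₀) ∧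
    finrank K (LinearMap.range g.1) = n
  obtain ⟨z₀, hz₀, hz₀'⟩ := SetLike.not_le_iff_exists.1 hlt
  have hQ : ∃ n, Q n := ⟨_, 1, Subalgebra.one_mem _, one_mul _, ⟨z₀, hz₀, hz₀'⟩, rfl⟩
  obtain ⟨g, hg, hgg, ⟨z', hz'N, hz'⟩, hn⟩ := Nat.find_spec hQ
  have hmin : ∀ g' ∈ A, g' * g' = g' → finrank K (LinearMap.range g'.1) <
      finrank K (LinearMap.range g.1) → ∀ z ∈ N₀, g'.2 z ∈ M₀ := by
    intro g' hg' hgg' hlt' z hz
    by_contra h
    rw [hn] at hlt'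
    exact Nat.find_min hQ hlt' ⟨g', hg', hgg', ⟨z, hz, h⟩, rfl⟩
  have hgg1 : g.1 * g.1 = g.1 := congrArg Prod.fst hgg
  have hgg2 : g.2 * g.2 = g.2 := congrArg Prod.snd hgg
  set z := g.2 z' with hz
  have hgz : g.2 z = z := congrArg (fun f : End K M => f z') hgg2
  have hzN : z ∈ N₀ := hN₀ g hg z' hz'N
  refine ⟨g, hg, hgg, z, hzN, hz', hgz, fun x hx hxz => ?_⟩
  set y := g * x * g with hy
  have hyS : y ∈ A := Subalgebra.mul_mem _ (Subalgebra.mul_mem _ hg hx) hg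
  have hgy : g * y = y := by rw [hy, ← mul_assoc, ← mul_assoc, hgg]
  have hyg : y * g = y := by rw [hy, mul_assoc, hgg]
  have hyz : y.2 z ∈ M₀ := by
    rw [hy]
    change g.2 (x.2 (g.2 z)) ∈ M₀
    rw [hgz]
    exact hM₀ g hg _ hxz
  obtain ⟨χ, hχ, hχy⟩ := exists_annihilator hnil hyS
  obtain ⟨q, hq1, hq2⟩ := exists_fit' y hχ hχy
  set u := aeval y q with hu
  have huS : u ∈ A := aeval_mem' hyS q
  have hcomm : u * y = y * u := by
    have : Commute (aeval y q) (aeval y (X : K[X])) := by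
      rw [Commute, SemiconjBy, ← map_mul, ← map_mul, mul_comm]
    rw [aeval_X] at this
    exact this
  set π := u * y with hπ
  have hπS : π ∈ A := Subalgebra.mul_mem _ huS hyS
  have hgπ : g * π = π := by rw [hcomm, ← mul_assoc, hgy]
  have hπg : π * g = π := by rw [hπ, mul_assoc, hyg]
  have hπ1 : π.1 = 0 := by
    by_contra hne
    have h1 : (g - π) * (g - π) = g - π := by
      rw [sub_mul, mul_sub, mul_sub, hgπ, hπg, hq1, sub_self, sub_zero, hgg]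
    have h2 : (g - π) ∈ A := Subalgebra.sub_mem _ hg hπS
    have h3 : finrank K (LinearMap.range (g - π).1) < finrank K (LinearMap.range g.1) :=
      rank_sub_lt hgg1 (congrArg Prod.fst hgπ) (congrArg Prod.fst hπg) (congrArg Prod.fst hq1) hne
    have h4 : (g - π).2 z ∈ M₀ := hmin _ h2 h1 h3 z hzN
    have h6 : π.2 z ∈ M₀ := by
      rw [hπ]
      change u.2 (y.2 z) ∈ M₀
      exact hM₀ u huS _ hyz
    apply hz'
    have h7 : z = (g - π).2 z + π.2 z := by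
      change z = (g.2 z - π.2 z) + π.2 z
      rw [hgz, sub_add_cancel]
    have h8 : z ∈ M₀ := by
      rw [h7]
      exact M₀.add_mem h4 h6
    exact h8
  have hπ0 : π = 0 := Prod.ext hπ1 (idem_nil (congrArg Prod.snd hq1) (hnil π hπS hπ1))
  have hnil1 : IsNilpotent y.1 := by
    obtain ⟨N, hN⟩ := hq2 hπ0
    exact ⟨N, congrArg Prod.fst hN⟩
  have h7 : LinearMap.trace K V (p * y.1) = 0 := by
    have h2 : IsNilpotent (p * y.1) := by
      obtain ⟨n, hn⟩ := hnil1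
      refine ⟨n, ?_⟩
      have hc : Commute p y.1 := hp y hyS
      rw [hc.mul_pow, hn, mul_zero]
    exact (LinearMap.isNilpotent_trace_of_isNilpotent h2).eq_zero
  have h8 : p * g.1 = g.1 * p := hp g hg
  have h9 : y.1 = g.1 * x.1 * g.1 := rfl
  have h10 : p * (g.1 * x.1) = g.1 * (p * (g.1 * x.1)) := by
    rw [← mul_assoc, ← mul_assoc g.1, ← mul_assoc g.1, ← h8, mul_assoc p g.1 g.1, hgg1]
  rw [h10, LinearMap.trace_mul_comm]
  rw [h9] at h7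
  rw [← h7]
  congr 1

/-- The subspace generated by a stable subspace and the values of the operators at `w`. -/
def cyc (A : Subalgebra K (End K V × End K M)) (M₀ : Submodule K M) (w : M) : Submodule K M :=
  M₀ ⊔ (Subalgebra.toSubmodule A).map ((LinearMap.applyₗ w : End K M →ₗ[K] M) ∘ₗ
    LinearMap.snd K (End K V) (End K M))

lemma mem_cyc {M₀ : Submodule K M} {w v : M} :
    v ∈ cyc A M₀ w ↔ ∃ m ∈ M₀, ∃ x ∈ A, m + x.2 w = v := by
  rw [cyc, Submodule.mem_sup]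
  constructor
  · rintro ⟨m, hm, _, ⟨x, hx, rfl⟩, rfl⟩
    exact ⟨m, hm, x, hx, rfl⟩
  · rintro ⟨m, hm, x, hx, rfl⟩
    exact ⟨m, hm, _, ⟨x, hx, rfl⟩, rfl⟩

lemma cyc_stable {M₀ : Submodule K M} (hM₀ : ∀ x ∈ A, ∀ m ∈ M₀, x.2 m ∈ M₀) (w : M) :
    ∀ x ∈ A, ∀ m ∈ cyc A M₀ w, x.2 m ∈ cyc A M₀ w := by
  intro x hx v hv
  obtain ⟨m, hm, y, hy, rfl⟩ := mem_cyc.1 hv
  refine mem_cyc.2 ⟨x.2 m, hM₀ x hx m hm, x * y, Subalgebra.mul_mem _ hx hy, ?_⟩
  rw [map_add]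
  rfl

lemma self_mem_cyc (M₀ : Submodule K M) (w : M) : w ∈ cyc A M₀ w :=
  mem_cyc.2 ⟨0, M₀.zero_mem, 1, Subalgebra.one_mem _, zero_add _⟩

lemma le_cyc (M₀ : Submodule K M) (w : M) : M₀ ≤ cyc A M₀ w := le_sup_left

/-- Vectors which are fixed up to `M₀` by a nilpotent operator. -/
lemma mem_of_nil {M₀ : Submodule K M} {f : End K M} (hf : ∀ m ∈ M₀, f m ∈ M₀)
    (hn : IsNilpotent f) {z : M} (hz : z - f z ∈ M₀) : z ∈ M₀ := by
  obtain ⟨n, hn⟩ := hn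
  have h : ∀ k : ℕ, z - (f ^ k) z ∈ M₀ := by
    intro k
    induction k with
    | zero =>
      rw [pow_zero, Module.End.one_apply, sub_self]
      exact M₀.zero_mem
    | succ k ih =>
      have h1 : z - (f ^ (k + 1)) z = (z - f z) + f (z - (f ^ k) z) := by
        rw [pow_succ', Module.End.mul_apply, map_sub]
        abel
      rw [h1]
      exact M₀.add_mem hz (hf _ ih)
  have h2 := h n
  rw [hn, LinearMap.zero_apply, sub_zero] at h2
  exact h2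

/-- **One step of a composition series.** `J` is a set of nilpotent elements which is stable under
multiplication from the left. -/
theorem exists_step [FiniteDimensional K M] (hnil : ∀ x ∈ A, x.1 = 0 → IsNilpotent x.2)
    {p : End K V} (hp : ∀ x ∈ A, p * x.1 = x.1 * p) {M₀ : Submodule K M}
    (hM₀ : ∀ x ∈ A, ∀ m ∈ M₀, x.2 m ∈ M₀) (hlt : M₀ ≠ ⊤)
    (J : Set (End K V × End K M)) (hJA : ∀ x ∈ J, x ∈ A) (hJn : ∀ x ∈ J, IsNilpotent x.2)
    (hJl : ∀ a ∈ A, ∀ x ∈ J, a * x ∈ J) :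
    ∃ N₀ : Submodule K M, (∀ x ∈ A, ∀ m ∈ N₀, x.2 m ∈ N₀) ∧ M₀ < N₀ ∧
      ∃ g ∈ A, g * g = g ∧ ∃ z ∈ N₀, z ∉ M₀ ∧ g.2 z = z ∧ N₀ = cyc A M₀ z ∧
        (∀ x ∈ A, x.2 z ∈ M₀ → LinearMap.trace K V (p * (g.1 * x.1)) = 0) ∧
        ∀ x ∈ J, x.2 z ∈ M₀ := by
  classical
  let Q : ℕ → Prop := fun n => ∃ N₀ : Submodule K M, (∀ x ∈ A, ∀ m ∈ N₀, x.2 m ∈ N₀) ∧ M₀ < N₀ ∧
    finrank K N₀ = n
  have hQ : ∃ n, Q n := ⟨_, ⊤, fun _ _ _ _ => Submodule.mem_top, lt_top_iff_ne_top.2 hlt, rfl⟩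
  obtain ⟨N₀, hN₀, hMN, hn⟩ := Nat.find_spec hQ
  have hmin : ∀ N : Submodule K M, (∀ x ∈ A, ∀ m ∈ N, x.2 m ∈ N) → M₀ < N → N ≤ N₀ → N = N₀ := by
    intro N hN hMN' hle
    by_contra hne
    have h1 : finrank K N < finrank K N₀ :=
      Submodule.finrank_lt_finrank_of_lt (lt_of_le_of_ne hle hne)
    rw [hn] at h1
    exact Nat.find_min hQ h1 ⟨N, hN, hMN', rfl⟩
  have hcyc : ∀ w ∈ N₀, w ∉ M₀ → cyc A M₀ w = N₀ := by
    intro w hw hw'
    refine hmin _ (cyc_stable hM₀ w) ?_ ?_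
    · refine lt_of_le_of_ne (le_cyc M₀ w) fun h => hw' ?_
      rw [h]
      exact self_mem_cyc M₀ w
    · intro v hv
      obtain ⟨m, hm, x, hx, rfl⟩ := mem_cyc.1 hv
      exact N₀.add_mem (hMN.le hm) (hN₀ x hx w hw)
  obtain ⟨g, hg, hgg, z, hzN, hzM, hgz, key⟩ :=
    exists_key_rel hnil hp hM₀ hN₀ (fun h => (lt_irrefl _ (lt_of_lt_of_le hMN h)))
  refine ⟨N₀, hN₀, hMN, g, hg, hgg, z, hzN, hzM, hgz, (hcyc z hzN hzM).symm, key, ?_⟩
  intro x hx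
  by_contra hw
  have h1 := hcyc (x.2 z) (hN₀ x (hJA x hx) z hzN) hw
  have h2 : z ∈ cyc A M₀ (x.2 z) := by rw [h1]; exact hzN
  obtain ⟨m, hm, a, ha, hma⟩ := mem_cyc.1 h2
  have h3 : IsNilpotent (a * x).2 := hJn _ (hJl a ha x hx)
  apply hzM
  refine mem_of_nil (f := (a * x).2) (fun m hm => hM₀ _ (Subalgebra.mul_mem _ ha (hJA x hx)) m hm)
    h3 ?_
  have h4 : z - (a * x).2 z = m := by
    have h5 : (a * x).2 z = a.2 (x.2 z) := rfl
    rw [h5]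
    nth_rewrite 1 [← hma]
    abel
  rw [h4]
  exact hm

end Pair

end Pool.Agent.Q56.XL
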