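import Pool.Agent.Q56.XL.Step

/-!
# Asymptotic values of the ranks cut out by idempotents
-/

set_option autoImplicit false

open CategoryTheory AlgebraicGeometry

universe u v w

namespace Pool.Agent.Q56.XL

open Module
open Pool.Agent.H914 Pool.Agent.H914.VarClass Pool.Agent.H914.VarClass.Obj
  Pool.Agent.H914.WeilCohomology Pool.Agent.Y133.Half Pool.Agent.Q55.Rate
  Pool.Agent.H281R3.HT Pool.Agent.Q56.ZO


variable {k : Type u} [Field k] {𝒱 : VarClass k} {ops : CycleOps 𝒱}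
  {W : WeilCohomology.{u, v} ops} {X Y Z P Q : 𝒱.Obj}

variable (S : Sys W)

/-- Composition from the left. -/
noncomputable def compL (Z : 𝒱.Obj) {v : W.H Q →ₗ[W.K] W.H P} (hv : v ∈ S.Op Q P) :
    S.Op Z Q →ₗ[W.K] S.Op Z P where
  toFun s := ⟨v ∘ₗ (s : W.H Z →ₗ[W.K] W.H Q), Sys.Op.comp hv s.2⟩
  map_add' _ _ := Subtype.ext (LinearMap.comp_add _ _ _)
  map_smul' _ _ := Subtype.ext (LinearMap.comp_smul _ _ _)

/-- Composition from the right. -/
noncomputable def compR (Z : 𝒱.Obj) {u : W.H P →ₗ[W.K] W.H Q} (hu : u ∈ S.Op P Q) :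
    S.Op Q Z →ₗ[W.K] S.Op P Z where
  toFun t := ⟨(t : W.H Q →ₗ[W.K] W.H Z) ∘ₗ u, Sys.Op.comp t.2 hu⟩
  map_add' _ _ := Subtype.ext (LinearMap.add_comp _ _ _)
  map_smul' _ _ := Subtype.ext (LinearMap.smul_comp _ _ _)

lemma BO_factor {g : Module.End W.K (W.H P)} {u : W.H P →ₗ[W.K] W.H Q}
    (hu : u ∈ S.Op P Q) {v : W.H Q →ₗ[W.K] W.H P} (hv : v ∈ S.Op Q P) (Z : 𝒱.Obj)
    (s : S.Op Z Q) (t : S.Op Q Z) :
    S.BO Q Z (u ∘ₗ g ∘ₗ v) LinearMap.id s t =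
      S.BO P Z g LinearMap.id (compL S Z hv s) (compR S Z hu t) := by
  rw [Sys.BO_apply, Sys.BO_apply]
  have e3 : ((compL S Z hv s : S.Op Z P) : W.H Z →ₗ[W.K] W.H P) = v ∘ₗ (s : W.H Z →ₗ[W.K] W.H Q) :=
    rfl
  have e4 : ((compR S Z hu t : S.Op P Z) : W.H P →ₗ[W.K] W.H Z) = (t : W.H Q →ₗ[W.K] W.H Z) ∘ₗ u :=
    rfl
  rw [e3, e4, LinearMap.id_comp, LinearMap.id_comp]
  have e2 := (Sys.Op.ev hu).par_comm
  have e1 : par (W.isInternal Q) ∘ₗ (u ∘ₗ g ∘ₗ v) ∘ₗ (s : W.H Z →ₗ[W.K] W.H Q) ∘ₗ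
      (t : W.H Q →ₗ[W.K] W.H Z) =
      u ∘ₗ (par (W.isInternal P) ∘ₗ g ∘ₗ v ∘ₗ (s : W.H Z →ₗ[W.K] W.H Q) ∘ₗ
        (t : W.H Q →ₗ[W.K] W.H Z)) := by
    simp only [← LinearMap.comp_assoc]
    rw [e2]
  rw [e1, LinearMap.trace_comp_comm']
  simp only [LinearMap.comp_assoc]

lemma rk_factor {g : Module.End W.K (W.H P)} {u : W.H P →ₗ[W.K] W.H Q}
    (hu : u ∈ S.Op P Q) {v : W.H Q →ₗ[W.K] W.H P} (hv : v ∈ S.Op Q P) (Z : 𝒱.Obj) :
    rk (A := S.Op Z Q) (B := S.Op Q Z) (S.BO Q Z (u ∘ₗ g ∘ₗ v) LinearMap.id) ≤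
      rk (A := S.Op Z P) (B := S.Op P Z) (S.BO P Z g LinearMap.id) := by
  have h2 := rk_comp_le (A := S.Op Z P) (B := S.Op P Z) (A' := S.Op Z Q) (B' := S.Op Q Z)
    (S.BO P Z g LinearMap.id) (compL S Z hv) (compR S Z hu)
  have e : S.BO Q Z (u ∘ₗ g ∘ₗ v) LinearMap.id =
      (S.BO P Z g LinearMap.id).compl₁₂ (compL S Z hv) (compR S Z hu) := by
    apply LinearMap.ext
    intro s
    apply LinearMap.ext
    intro t
    exact BO_factor S hu hv Z s t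
  rw [e]
  exact h2

/-- The rank cut out by `g` bounds the rank cut out by an operator which factors through `g`. -/
lemma r_factor {g : Module.End W.K (W.H P)} (hg : g ∈ S.Op P P) {u : W.H P →ₗ[W.K] W.H Q}
    (hu : u ∈ S.Op P Q) {v : W.H Q →ₗ[W.K] W.H P} (hv : v ∈ S.Op Q P) (Z : 𝒱.Obj) :
    S.r Q (u ∘ₗ g ∘ₗ v) Z ≤ S.r P g Z := by
  have hg' : u ∘ₗ g ∘ₗ v ∈ S.Op Q Q := Sys.Op.comp hu (Sys.Op.comp hg hv)
  have h1 := S.rk_BO_r (P := Q) (Z := Z) (Sys.Op.ev hg')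
  have h2 := S.rk_BO_r (P := P) (Z := Z) (Sys.Op.ev hg)
  rw [← h1, ← h2]
  exact rk_factor S hu hv Z

/-- The transfer of an idempotent to the next power. -/
lemma exists_transfer {l : W.H X} (hl : l ∈ S.C X) (hl1 : W.tr X l = 1) {m : ℕ}
    {g : Module.End W.K (W.H (pw X m))} (hg : g ∈ S.Op (pw X m) (pw X m)) (hgg : g ∘ₗ g = g) :
    ∃ g' ∈ S.Op (pw X (m + 1)) (pw X (m + 1)), g' ∘ₗ g' = g' ∧
      finrank W.K (LinearMap.range g') = finrank W.K (LinearMap.range g) ∧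
      ∀ Z : 𝒱.Obj, S.r (pw X (m + 1)) g' Z ≤ S.r (pw X m) g Z := by
  obtain ⟨u, hu, v, hv, huv⟩ := exists_section S hl hl1 m
  refine ⟨u ∘ₗ g ∘ₗ v, Sys.Op.comp hu (Sys.Op.comp hg hv), ?_, ?_, r_factor S hg hu hv⟩
  · have h1 : (u ∘ₗ g ∘ₗ v) ∘ₗ (u ∘ₗ g ∘ₗ v) = u ∘ₗ (g ∘ₗ (v ∘ₗ u) ∘ₗ g) ∘ₗ v := by
      simp only [LinearMap.comp_assoc]
    rw [h1, huv, LinearMap.id_comp, hgg]
  · have hv' : LinearMap.range v = ⊤ := by
      rw [LinearMap.range_eq_top]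
      intro x
      exact ⟨u x, congrArg (fun f => f x) huv⟩
    have hu' : Function.Injective u := by
      intro x y h
      have h1 : v (u x) = v (u y) := by rw [h]
      have h2 : ∀ x, v (u x) = x := fun x => congrArg (fun f => f x) huv
      rwa [h2, h2] at h1
    have h1 : LinearMap.range (u ∘ₗ g ∘ₗ v) = (LinearMap.range g).map u := by
      rw [LinearMap.range_comp, LinearMap.range_comp_of_range_eq_top _ hv']
    rw [h1]
    exact (Submodule.equivMapOfInjective u hu' _).finrank_eq.symm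

/-- **Lower bound for the rank cut out by an idempotent**, for powers of both parities. -/
theorem lower_all {l : W.H X} (hl : l ∈ S.C X) (hl1 : W.tr X l = 1)
    (hB : ∀ c : ℝ, 0 ≤ c → c < (finrank W.K (W.H X) : ℝ) ^ 2 →
      ∃ l₀, ∀ l ≥ l₀, c * S.al X l ≤ S.al X (l + 1))
    (hX : 0 < finrank W.K (W.H X)) {m : ℕ} {g : Module.End W.K (W.H (pw X m))}
    (hg : g ∈ S.Op (pw X m) (pw X m)) (hgg : g ∘ₗ g = g) {ε : ℝ} (hε : 0 < ε) :
    ∃ n₀ : ℕ, ∀ n ≥ n₀,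
      ((finrank W.K (LinearMap.range g) : ℝ) - ε) * S.a (pw X n) ≤ S.r (pw X m) g (pw X n) := by
  obtain ⟨g', hg', hgg', hr, hle⟩ := exists_transfer S hl hl1 hg hgg
  obtain ⟨n₁, h₁⟩ := lower_r S hB hX (m := m) (finrank W.K (LinearMap.range g)) hε
  obtain ⟨n₂, h₂⟩ := lower_r S hB hX (m := m + 1) (finrank W.K (LinearMap.range g)) hε
  refine ⟨max n₁ n₂, fun n hn => ?_⟩
  by_cases hp : n % 2 = m % 2
  · exact h₁ n ((le_max_left _ _).trans hn) hp g hg hgg le_rfl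
  · have h3 := h₂ n ((le_max_right _ _).trans hn) (by omega) g' hg' hgg' hr.ge
    refine h3.trans ?_
    exact_mod_cast hle (pw X n)

/-- The lower bound for a list of idempotents. -/
theorem lower_list {l : W.H X} (hl : l ∈ S.C X) (hl1 : W.tr X l = 1)
    (hB : ∀ c : ℝ, 0 ≤ c → c < (finrank W.K (W.H X) : ℝ) ^ 2 →
      ∃ l₀, ∀ l ≥ l₀, c * S.al X l ≤ S.al X (l + 1))
    (hX : 0 < finrank W.K (W.H X)) {m : ℕ} (L : List (Module.End W.K (W.H (pw X m))))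
    (hL : ∀ g ∈ L, g ∈ S.Op (pw X m) (pw X m) ∧ g ∘ₗ g = g) :
    ∀ ε : ℝ, 0 < ε → ∃ n₀ : ℕ, ∀ n ≥ n₀,
      (((L.map fun g => finrank W.K (LinearMap.range g)).sum : ℝ) - ε) * S.a (pw X n) ≤
        ((L.map fun g => S.r (pw X m) g (pw X n)).sum : ℕ) := by
  induction L with
  | nil =>
    intro ε hε
    refine ⟨0, fun n _ => ?_⟩
    have h1 : (0 : ℝ) ≤ S.a (pw X n) := Nat.cast_nonneg _
    simp only [List.map_nil, List.sum_nil, Nat.cast_zero, zero_sub]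
    nlinarith
  | cons g L ih =>
    intro ε hε
    obtain ⟨n₁, h₁⟩ := ih (fun g' hg' => hL g' (List.mem_cons_of_mem _ hg')) (ε / 2) (by positivity)
    obtain ⟨hg, hgg⟩ := hL g (by simp)
    obtain ⟨n₂, h₂⟩ := lower_all S hl hl1 hB hX hg hgg (ε := ε / 2) (by positivity)
    refine ⟨max n₁ n₂, fun n hn => ?_⟩
    have h3 := h₁ n ((le_max_left _ _).trans hn)
    have h4 := h₂ n ((le_max_right _ _).trans hn)
    simp only [List.map_cons, List.sum_cons]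
    push_cast at h3 ⊢
    nlinarith

/-- The upper bound for even powers. -/
lemma upper_even {P : 𝒱.Obj} {g : Module.End W.K (W.H P)} (hg : g ∈ S.Op P P) (hgg : g ∘ₗ g = g)
    (n : ℕ) : S.r P g (pw X (2 * n + 1)) ≤
      finrank W.K (LinearMap.range g) * S.a (pw X (2 * n + 1)) := by
  have θ := pwAdd X n n
  rw [show n + n + 1 = 2 * n + 1 by ring] at θ
  rw [← S.r_iso g θ, ← S.a_iso θ]
  exact S.r_le_rank hg hgg _

/-- The upper bound for odd powers. -/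
lemma upper_odd {P : 𝒱.Obj} {g : Module.End W.K (W.H P)} (hg : g ∈ S.Op P P) (hgg : g ∘ₗ g = g)
    (n : ℕ) : S.r P g (pw X (2 * n + 2)) ≤
      finrank W.K (LinearMap.range g) * finrank W.K (W.H X) * S.a (pw X (2 * n + 1)) := by
  have θ := pwAdd X n n
  rw [show n + n + 1 = 2 * n + 1 by ring] at θ
  have θ' : X.prod ((pw X n).prod (pw X n)) ≅ pw X (2 * n + 2) :=
    prodCongr (Iso.refl X) θ ≪≫ prodComm X (pw X (2 * n + 1))
  rw [← S.r_iso g θ', ← S.a_iso θ, ← S.r_assoc]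
  have h11 : (1 : Module.End W.K (W.H X)) ∘ₗ 1 = 1 := rfl
  have hE : extOp W g (1 : Module.End W.K (W.H X)) ∘ₗ extOp W g 1 = extOp W g 1 := by
    change extOp W g 1 * extOp W g 1 = _
    rw [extOp_mul, mul_one]
    change extOp W (g ∘ₗ g) 1 = _
    rw [hgg]
  have hEm : extOp W g (1 : Module.End W.K (W.H X)) ∈ S.Op (P.prod X) (P.prod X) :=
    Sys.Op.ext hg Sys.Op.id
  refine (S.r_le_rank hEm hE _).trans ?_
  rw [finrank_extOp hgg h11, Sys.rank_one]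

/-- The ranks on the odd powers. -/
lemma next_odd {l : W.H X} (hl : l ∈ S.C X) (hl1 : W.tr X l = 1)
    (hB : ∀ c : ℝ, 0 ≤ c → c < (finrank W.K (W.H X) : ℝ) ^ 2 →
      ∃ l₀, ∀ l ≥ l₀, c * S.al X l ≤ S.al X (l + 1))
    (hX : 0 < finrank W.K (W.H X)) {ε : ℝ} (hε : 0 < ε) :
    ∃ n₀ : ℕ, ∀ n ≥ n₀,
      ((finrank W.K (W.H X) : ℝ) - ε) * S.a (pw X n) ≤ S.a (pw X (n + 1)) := by
  have h11 : (1 : Module.End W.K (W.H (pw X 0))) ∘ₗ 1 = 1 := rfl
  obtain ⟨n₀, h⟩ := lower_all S hl hl1 hB hX (m := 0) (g := 1) Sys.Op.id h11 hε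
  refine ⟨n₀, fun n hn => ?_⟩
  have h1 := h n hn
  have h2 : finrank W.K (LinearMap.range (1 : Module.End W.K (W.H (pw X 0)))) =
      finrank W.K (W.H X) := Sys.rank_one X
  have θ := pwAdd X 0 n
  rw [show 0 + n + 1 = n + 1 by ring] at θ
  rw [h2, S.r_one, S.a_iso θ] at h1
  exact h1

/-- The upper bound for a list of idempotents on large powers. -/
theorem upper_list {l : W.H X} (hl : l ∈ S.C X) (hl1 : W.tr X l = 1)
    (hB : ∀ c : ℝ, 0 ≤ c → c < (finrank W.K (W.H X) : ℝ) ^ 2 →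
      ∃ l₀, ∀ l ≥ l₀, c * S.al X l ≤ S.al X (l + 1))
    (hX : 0 < finrank W.K (W.H X)) {ε : ℝ} (hε : 0 < ε) :
    ∃ n₀ : ℕ, ∀ m ≥ n₀, ∀ (P : 𝒱.Obj) (L : List (Module.End W.K (W.H P))),
      (∀ g ∈ L, g ∈ S.Op P P ∧ g ∘ₗ g = g) →
      (((L.map fun g => S.r P g (pw X m)).sum : ℕ) : ℝ) ≤
        (1 + ε) * ((L.map fun g => finrank W.K (LinearMap.range g)).sum : ℕ) * S.a (pw X m) := by
  set b := finrank W.K (W.H X) with hb
  have hb1 : (1 : ℝ) ≤ b := by exact_mod_cast hX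
  set δ : ℝ := ε / (1 + ε) with hδ
  have hδ0 : 0 < δ := by positivity
  obtain ⟨n₀, h₀⟩ := next_odd S hl hl1 hB hX hδ0
  refine ⟨n₀ + 1, fun m hm P L hL => ?_⟩
  have key : ∀ g ∈ S.Op P P, g ∘ₗ g = g → (S.r P g (pw X m) : ℝ) ≤
      (1 + ε) * (finrank W.K (LinearMap.range g) : ℝ) * S.a (pw X m) := by
    intro g hg hgg
    rcases Nat.even_or_odd' m with ⟨j, hj | hj⟩
    · obtain ⟨j', rfl⟩ : ∃ j', j = j' + 1 := ⟨j - 1, by omega⟩
      have h1 := upper_odd S (X := X) hg hgg j'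
      have h2 := h₀ (2 * j' + 1) (by omega)
      have hj' : m = 2 * j' + 1 + 1 := by omega
      subst hj'
      have h3 : (S.r P g (pw X (2 * j' + 2)) : ℝ) ≤
          (finrank W.K (LinearMap.range g) : ℝ) * b * S.a (pw X (2 * j' + 1)) := by
        exact_mod_cast h1
      rw [← hb] at h2
      have h4 : (b : ℝ) * S.a (pw X (2 * j' + 1)) ≤ (1 + ε) * S.a (pw X (2 * j' + 1 + 1)) := by
        have h5 : (b : ℝ) ≤ (1 + ε) * (b - δ) := by
          have h6 : (1 + ε) * δ = ε := by rw [hδ]; field_simp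
          nlinarith
        have h7 : (0 : ℝ) ≤ S.a (pw X (2 * j' + 1)) := Nat.cast_nonneg _
        calc (b : ℝ) * S.a (pw X (2 * j' + 1)) ≤ ((1 + ε) * (b - δ)) * S.a (pw X (2 * j' + 1)) :=
              mul_le_mul_of_nonneg_right h5 h7
          _ = (1 + ε) * ((b - δ) * S.a (pw X (2 * j' + 1))) := by ring
          _ ≤ _ := mul_le_mul_of_nonneg_left h2 (by positivity)
      have h8 : (0 : ℝ) ≤ finrank W.K (LinearMap.range g) := Nat.cast_nonneg _
      calc (S.r P g (pw X (2 * j' + 2)) : ℝ) ≤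
            (finrank W.K (LinearMap.range g) : ℝ) * (b * S.a (pw X (2 * j' + 1))) := by
              rw [← mul_assoc]; exact h3
        _ ≤ (finrank W.K (LinearMap.range g) : ℝ) * ((1 + ε) * S.a (pw X (2 * j' + 1 + 1))) :=
            mul_le_mul_of_nonneg_left h4 h8
        _ = _ := by ring
    · subst hj
      have h1 := upper_even S (X := X) hg hgg j
      have h3 : (S.r P g (pw X (2 * j + 1)) : ℝ) ≤
          (finrank W.K (LinearMap.range g) : ℝ) * S.a (pw X (2 * j + 1)) := by exact_mod_cast h1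
      refine h3.trans ?_
      have h8 : (0 : ℝ) ≤ (finrank W.K (LinearMap.range g) : ℝ) * S.a (pw X (2 * j + 1)) := by
        positivity
      nlinarith
  clear hm
  induction L with
  | nil => simp
  | cons g L ih =>
    have h1 := ih fun g' hg' => hL g' (List.mem_cons_of_mem _ hg')
    obtain ⟨hg, hgg⟩ := hL g (by simp)
    have h2 := key g hg hgg
    simp only [List.map_cons, List.sum_cons]
    push_cast at h1 ⊢
    nlinarith

/-- The upper bound for a list of idempotents on the even powers. -/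
theorem upper_list_even {P : 𝒱.Obj} (L : List (Module.End W.K (W.H P)))
    (hL : ∀ g ∈ L, g ∈ S.Op P P ∧ g ∘ₗ g = g) (n : ℕ) :
    (L.map fun g => S.r P g (pw X (2 * n + 1))).sum ≤
      (L.map fun g => finrank W.K (LinearMap.range g)).sum * S.a (pw X (2 * n + 1)) := by
  induction L with
  | nil => simp
  | cons g L ih =>
    have h1 := ih fun g' hg' => hL g' (List.mem_cons_of_mem _ hg')
    obtain ⟨hg, hgg⟩ := hL g (by simp)
    have h2 := upper_even S (X := X) hg hgg n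
    simp only [List.map_cons, List.sum_cons]
    rw [add_mul]
    exact add_le_add h2 h1

end Pool.Agent.Q56.XL
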