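import Pool.Agent.Q56.XL.Rel

/-!
# Chains of subspaces and their transport
-/

set_option autoImplicit false
set_option linter.unusedSectionVars false

open CategoryTheory AlgebraicGeometry Polynomial

universe u v w

namespace Pool.Agent.Q56.XL

open Module
open Pool.Agent.H914 Pool.Agent.H914.VarClass Pool.Agent.H914.VarClass.Obj
  Pool.Agent.H914.WeilCohomology Pool.Agent.Y133.Half Pool.Agent.Q55.Rate
  Pool.Agent.H281R3.HT Pool.Agent.Q56.ZO

variable {k : Type u} [Field k] {𝒱 : VarClass k} {ops : CycleOps 𝒱}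
  {W : WeilCohomology.{u, v} ops} {T : CycTheory.{u, v, w} W} {X Y Z P Q : 𝒱.Obj}

/-- Stable subspaces. -/
def Stab (T : CycTheory.{u, v, w} W) (P : 𝒱.Obj) (M : Submodule W.K (T.M P)) : Prop :=
  ∀ x ∈ corrPairs T P P, ∀ m ∈ M, x.2 m ∈ M

/-- One step of a chain. -/
structure IsStep (T : CycTheory.{u, v, w} W) (P : 𝒱.Obj) (M N : Submodule W.K (T.M P))
    (g : Module.End W.K (W.H P)) : Prop where
  stab : Stab T P M
  ex : ∃ (f : Module.End W.K (T.M P)) (z : T.M P), (g, f) ∈ corrPairs T P P ∧ g ∘ₗ g = g ∧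
    f * f = f ∧ g ≠ 0 ∧ z ∉ M ∧ f z = z ∧ N = cyc (pairAlg T P) M z ∧
    (∀ x ∈ corrPairs T P P, x.2 z ∈ M →
      LinearMap.trace W.K (W.H P) (par (W.isInternal P) * (g * x.1)) = 0) ∧
    ∀ x ∈ corrPairs T P P, x.1 ∈ (algSys W).NOp P P → x.2 z ∈ M

lemma IsStep.stabN {M N : Submodule W.K (T.M P)} {g : Module.End W.K (W.H P)}
    (h : IsStep T P M N g) : Stab T P N := by
  obtain ⟨f, z, -, -, -, -, -, -, rfl, -, -⟩ := h.ex
  exact fun x hx => cyc_stable (A := pairAlg T P) (M₀ := M)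
    (fun x hx m hm => h.stab x hx m hm) z x hx

lemma IsStep.le {M N : Submodule W.K (T.M P)} {g : Module.End W.K (W.H P)}
    (h : IsStep T P M N g) : M ≤ N := by
  obtain ⟨f, z, -, -, -, -, -, -, rfl, -, -⟩ := h.ex
  exact le_cyc M z

/-- A chain of subspaces, given by the list of its idempotents. -/
inductive Chain (T : CycTheory.{u, v, w} W) (P : 𝒱.Obj) :
    Submodule W.K (T.M P) → List (Module.End W.K (W.H P)) → Prop
  | nil {M : Submodule W.K (T.M P)} (h : Stab T P M) : Chain T P M []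
  | cons {M₀ M N : Submodule W.K (T.M P)} {g : Module.End W.K (W.H P)}
      {L : List (Module.End W.K (W.H P))} (h₀ : Stab T P M₀) (hle : M₀ ≤ M)
      (hs : IsStep T P M N g) (hc : Chain T P N L) : Chain T P M₀ (g :: L)

/-- A chain of subspaces without gaps. -/
inductive FullChain (T : CycTheory.{u, v, w} W) (P : 𝒱.Obj) :
    Submodule W.K (T.M P) → List (Module.End W.K (W.H P)) → Prop
  | nil : FullChain T P ⊤ []
  | cons {M N : Submodule W.K (T.M P)} {g : Module.End W.K (W.H P)}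
      {L : List (Module.End W.K (W.H P))} (hs : IsStep T P M N g) (hc : FullChain T P N L) :
      FullChain T P M (g :: L)

lemma Chain.mono {M M' : Submodule W.K (T.M P)} {L : List (Module.End W.K (W.H P))}
    (h : Chain T P M L) (h' : Stab T P M') (hle : M' ≤ M) : Chain T P M' L := by
  cases h with
  | nil h => exact Chain.nil h'
  | cons h₀ hle' hs hc => exact Chain.cons h' (hle.trans hle') hs hc

/-- The sum of the ranks of the idempotents. -/
noncomputable def len (L : List (Module.End W.K (W.H P))) : ℕ :=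
  (L.map fun g => finrank W.K (LinearMap.range g)).sum

/-- The sum of the ranks cut out by the idempotents. -/
noncomputable def rsum (W : WeilCohomology.{u, v} ops) (P : 𝒱.Obj)
    (L : List (Module.End W.K (W.H P))) (Z : 𝒱.Obj) : ℕ :=
  (L.map fun g => (algSys W).r P g Z).sum

/-- The idempotents of a chain. -/
lemma Chain.mem {M : Submodule W.K (T.M P)} {L : List (Module.End W.K (W.H P))}
    (h : Chain T P M L) : ∀ g ∈ L, g ∈ (algSys W).Op P P ∧ g ∘ₗ g = g ∧ g ≠ 0 ∧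
      ∃ f : Module.End W.K (T.M P), (g, f) ∈ corrPairs T P P ∧ f * f = f ∧ f ≠ 0 := by
  induction h with
  | nil h => simp
  | @cons M₀ M N g L h₀ hle hs hc ih =>
    intro g' hg'
    rcases List.mem_cons.1 hg' with rfl | h
    · obtain ⟨f, z, hgf, hgg, hff, hg0, hzM, hfz, -, -, -⟩ := hs.ex
      refine ⟨corrPairs.op hgf, hgg, hg0, f, hgf, hff, fun h => ?_⟩
      rw [h, LinearMap.zero_apply] at hfz
      exact hzM (hfz ▸ M.zero_mem)
    · exact ih g' h

/-- **Lower bound.** -/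
theorem Chain.lower {M : Submodule W.K (T.M P)} {L : List (Module.End W.K (W.H P))}
    (h : Chain T P M L) (Z : 𝒱.Obj) :
    ((rsum W P L Z : ℕ) : Cardinal.{w}) + Module.rank W.K (pre T P Z M) ≤
      Module.rank W.K (T.M Z) := by
  induction h with
  | nil h =>
    simp only [rsum, List.map_nil, List.sum_nil, Nat.cast_zero, zero_add]
    exact Submodule.rank_le _
  | @cons M₀ M N g L h₀ hle hs hc ih =>
    have hN := hs.stabN
    have hMN := hs.le
    obtain ⟨f, z, hgf, hgg, hff, hg0, hzM, hfz, hN', key, -⟩ := hs.ex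
    have hz : z ∈ N := by rw [hN']; exact self_mem_cyc M z
    have h3 := rank_step (T := T) (P := P) hN hMN (corrPairs.op hgf) hz key Z
    have h4 : Module.rank W.K (pre T P Z M₀) ≤ Module.rank W.K (pre T P Z M) :=
      Submodule.rank_mono (pre_mono hle)
    have e : rsum W P (g :: L) Z = (algSys W).r P g Z + rsum W P L Z := by
      rw [rsum, List.map_cons, List.sum_cons, rsum]
    rw [e, Nat.cast_add]
    calc _ = ((rsum W P L Z : ℕ) : Cardinal.{w}) +
          ((((algSys W).r P g Z : ℕ) : Cardinal.{w}) + Module.rank W.K (pre T P Z M₀)) := by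
          rw [← add_assoc, add_comm ((rsum W P L Z : ℕ) : Cardinal.{w})]
      _ ≤ ((rsum W P L Z : ℕ) : Cardinal.{w}) +
          ((((algSys W).r P g Z : ℕ) : Cardinal.{w}) + Module.rank W.K (pre T P Z M)) :=
          add_le_add le_rfl (add_le_add le_rfl h4)
      _ ≤ ((rsum W P L Z : ℕ) : Cardinal.{w}) + Module.rank W.K (pre T P Z N) :=
          add_le_add le_rfl h3
      _ ≤ _ := ih

/-- **Upper bound.** -/
theorem FullChain.upper {a : (W.H P →ₗ[W.K] W.H Z) × (T.M P →ₗ[W.K] T.M Z)}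
    {b : (W.H Z →ₗ[W.K] W.H P) × (T.M Z →ₗ[W.K] T.M P)} (hab : Retract T P Z a b)
    [FiniteDimensional W.K (T.M Z)] [FiniteDimensional W.K (T.M P)]
    {M : Submodule W.K (T.M P)} {L : List (Module.End W.K (W.H P))} (h : FullChain T P M L) :
    finrank W.K (T.M Z) ≤ finrank W.K (M.comap b.2) + rsum W P L Z := by
  induction h with
  | nil =>
    rw [Submodule.comap_top, finrank_top]
    exact Nat.le_add_right _ _
  | @cons M N g L hs hc ih =>
    obtain ⟨f, z, hgf, hgg, hff, hg0, hzM, hfz, hN', -, key⟩ := hs.ex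
    have h1 := finrank_step' hab (M₀ := M) hs.stab hgf hfz key
    rw [← hN'] at h1
    have e : rsum W P (g :: L) Z = (algSys W).r P g Z + rsum W P L Z := by
      rw [rsum, List.map_cons, List.sum_cons, rsum]
    rw [e]
    change _ ≤ _ + (algSys W).r P g Z at h1
    omega

/-- **Refinement.** -/
theorem Chain.refine [FiniteDimensional W.K (T.M P)]
    (hW : ∀ u ∈ (algSys W).NOp P P, IsNilpotent (u : Module.End W.K (W.H P)))
    (hnil : ∀ x ∈ corrPairs T P P, x.1 = 0 → IsNilpotent (x.2 : Module.End W.K (T.M P)))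
    {M : Submodule W.K (T.M P)} {L : List (Module.End W.K (W.H P))} (h : Chain T P M L) :
    FullChain T P M L ∨ ∃ L' : List (Module.End W.K (W.H P)), Chain T P M L' ∧ len L < len L' := by
  have key : ∀ M₀ M₁ : Submodule W.K (T.M P), Stab T P M₀ → Stab T P M₁ → M₀ < M₁ →
      ∃ N g, IsStep T P M₀ N g ∧ N ≤ M₁ := by
    intro M₀ M₁ h₀ h₁ hlt
    obtain ⟨N₀, hN₀, hlt', hle', g, hg, hgg, z, hzN, hzM, hgz, hcyc, key, hJ⟩ :=
      exists_step_rel (A := pairAlg T P) hnil (p := par (W.isInternal P))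
        (fun x hx => (Sys.Op.ev (corrPairs.op hx)).par_comm) h₀ h₁ hlt
        {x | x ∈ corrPairs T P P ∧ x.1 ∈ (algSys W).NOp P P} (fun x hx => hx.1)
        (fun x hx => nil_of_num hW hnil hx.1 hx.2)
        (fun a ha x hx => ⟨corrPairs.comp (T := T) ha hx.1,
          Sys.NOp.comp_left (corrPairs.op ha) hx.2⟩)
    have hg' : g ∈ corrPairs T P P := hg
    have hg2 : g.2 ≠ 0 := fun h3 => by
      apply hzM
      rw [← hgz, h3]
      exact M₀.zero_mem
    exact ⟨N₀, g.1, ⟨h₀, g.2, z, hg', congrArg Prod.fst hgg, congrArg Prod.snd hgg,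
      fun h0 => hg2 (idem_nil (congrArg Prod.snd hgg) (hnil g hg' h0)), hzM, hgz, hcyc, key,
      fun x hx hx1 => hJ x ⟨hx, hx1⟩⟩, hle'⟩
  have hpos : ∀ {M N : Submodule W.K (T.M P)} {g : Module.End W.K (W.H P)}, IsStep T P M N g →
      0 < finrank W.K (LinearMap.range g) := by
    intro M N g hs
    obtain ⟨f, z, -, -, -, hg0, -⟩ := hs.ex
    exact Sys.finrank_range_pos hg0
  induction h with
  | @nil M h =>
    by_cases htop : M = ⊤
    · left
      rw [htop]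
      exact FullChain.nil
    · right
      obtain ⟨N, g, hs, -⟩ := key M ⊤ h (fun _ _ _ _ => Submodule.mem_top)
        (lt_top_iff_ne_top.2 htop)
      refine ⟨[g], Chain.cons h le_rfl hs (Chain.nil hs.stabN), ?_⟩
      have := hpos hs
      rw [len, len]
      simpa using this
  | @cons M₀ M N g L h₀ hle hs hc ih =>
    rcases ih with h1 | ⟨L', h1, h2⟩
    · by_cases heq : M₀ = M
      · left
        rw [heq]
        exact FullChain.cons hs h1
      · right
        obtain ⟨N', g', hs', hle'⟩ := key M₀ M h₀ hs.stab (lt_of_le_of_ne hle heq)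
        refine ⟨g' :: g :: L, Chain.cons h₀ le_rfl hs' (Chain.cons hs'.stabN hle' hs hc), ?_⟩
        have := hpos hs'
        rw [len, len]
        simp only [List.map_cons, List.sum_cons]
        omega
    · right
      refine ⟨g :: L', Chain.cons h₀ hle hs h1, ?_⟩
      rw [len, len] at h2 ⊢
      simp only [List.map_cons, List.sum_cons]
      omega

/-- **Transport of a step.** -/
theorem IsStep.transport {a : (W.H Q →ₗ[W.K] W.H P) × (T.M Q →ₗ[W.K] T.M P)}
    {b : (W.H P →ₗ[W.K] W.H Q) × (T.M P →ₗ[W.K] T.M Q)} (hab : Retract T Q P a b)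
    {M N : Submodule W.K (T.M P)} {g : Module.End W.K (W.H P)} (h : IsStep T P M N g) :
    ∃ N' : Submodule W.K (T.M Q), IsStep T Q (pre T P Q M) N' (b.1 ∘ₗ g ∘ₗ a.1) ∧
      N' ≤ pre T P Q N := by
  have hN := h.stabN
  have hMN := h.le
  have hM := h.stab
  obtain ⟨f, z, hgf, hgg, hff, hg0, hzM, hfz, hN', key, keyN⟩ := h.ex
  have hz : z ∈ N := by rw [hN']; exact self_mem_cyc M z
  have hpre : ∀ M : Submodule W.K (T.M P), Stab T Q (pre T P Q M) := by
    intro M x hx m hm y hy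
    have h1 := hm _ (corrPairs.comp hy hx)
    exact h1
  have hgf' : (b.1 ∘ₗ (g ∘ₗ a.1), b.2 ∘ₗ (f ∘ₗ a.2)) ∈ corrPairs T Q Q :=
    corrPairs.comp hab.right (corrPairs.comp hgf hab.left)
  have hfz' : (b.2 ∘ₗ (f ∘ₗ a.2)) (b.2 z) = b.2 z := by
    change b.2 (f (a.2 (b.2 z))) = b.2 z
    rw [hab.apply, hfz]
  have hbN : b.2 z ∈ pre T P Q N := by
    intro x hx
    have h1 := hN _ (corrPairs.comp hx hab.right) z hz
    exact h1
  refine ⟨cyc (pairAlg T Q) (pre T P Q M) (b.2 z), ⟨hpre M, b.2 ∘ₗ (f ∘ₗ a.2), b.2 z, hgf', ?_, ?_,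
    ?_, ?_, hfz', rfl, ?_, ?_⟩, ?_⟩
  · have e : (b.1 ∘ₗ g ∘ₗ a.1) ∘ₗ (b.1 ∘ₗ g ∘ₗ a.1) = b.1 ∘ₗ (g ∘ₗ (a.1 ∘ₗ b.1) ∘ₗ g) ∘ₗ a.1 := by
      simp only [LinearMap.comp_assoc]
    rw [e, hab.fst, LinearMap.id_comp, hgg]
  · have e : (b.2 ∘ₗ (f ∘ₗ a.2)) ∘ₗ (b.2 ∘ₗ (f ∘ₗ a.2)) =
        b.2 ∘ₗ (f ∘ₗ (a.2 ∘ₗ b.2) ∘ₗ f) ∘ₗ a.2 := by
      simp only [LinearMap.comp_assoc]
    change (b.2 ∘ₗ (f ∘ₗ a.2)) ∘ₗ (b.2 ∘ₗ (f ∘ₗ a.2)) = b.2 ∘ₗ (f ∘ₗ a.2)
    rw [e, hab.snd, LinearMap.id_comp]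
    have e2 : f ∘ₗ f = f := hff
    rw [e2]
  · intro h0
    apply hg0
    have e : a.1 ∘ₗ (b.1 ∘ₗ g ∘ₗ a.1) ∘ₗ b.1 = (a.1 ∘ₗ b.1) ∘ₗ g ∘ₗ (a.1 ∘ₗ b.1) := by
      simp only [LinearMap.comp_assoc]
    rw [h0, hab.fst, LinearMap.id_comp, LinearMap.comp_id, LinearMap.zero_comp,
      LinearMap.comp_zero] at e
    exact e.symm
  · intro h0
    apply hzM
    have h1 := h0 _ hab.left
    rwa [hab.apply] at h1
  · intro x hx hxz
    have h1 : (a.1 ∘ₗ (x.1 ∘ₗ b.1), a.2 ∘ₗ (x.2 ∘ₗ b.2)) ∈ corrPairs T P P :=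
      corrPairs.comp hab.left (corrPairs.comp hx hab.right)
    have h2 := key _ h1 (hxz _ hab.left)
    change LinearMap.trace W.K (W.H Q) (par (W.isInternal Q) ∘ₗ (b.1 ∘ₗ g ∘ₗ a.1) ∘ₗ x.1) = 0
    change LinearMap.trace W.K (W.H P) (par (W.isInternal P) ∘ₗ g ∘ₗ (a.1 ∘ₗ (x.1 ∘ₗ b.1))) = 0
      at h2
    have hc := (Sys.Op.ev (corrPairs.op hab.right)).par_comm
    have e1 : par (W.isInternal Q) ∘ₗ (b.1 ∘ₗ g ∘ₗ a.1) ∘ₗ x.1 =
        b.1 ∘ₗ (par (W.isInternal P) ∘ₗ g ∘ₗ a.1 ∘ₗ x.1) := by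
      have e2 : par (W.isInternal Q) ∘ₗ (b.1 ∘ₗ g ∘ₗ a.1) ∘ₗ x.1 =
          (par (W.isInternal Q) ∘ₗ b.1) ∘ₗ (g ∘ₗ a.1 ∘ₗ x.1) := by
        simp only [LinearMap.comp_assoc]
      rw [e2, hc]
      simp only [LinearMap.comp_assoc]
    rw [e1, LinearMap.trace_comp_comm']
    have e3 : (par (W.isInternal P) ∘ₗ g ∘ₗ a.1 ∘ₗ x.1) ∘ₗ b.1 =
        par (W.isInternal P) ∘ₗ g ∘ₗ (a.1 ∘ₗ (x.1 ∘ₗ b.1)) := by
      simp only [LinearMap.comp_assoc]
    rw [e3]
    exact h2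
  · intro x hx hx1 y hy
    have h1 : (y.1 ∘ₗ (x.1 ∘ₗ b.1), y.2 ∘ₗ (x.2 ∘ₗ b.2)) ∈ corrPairs T P P :=
      corrPairs.comp hy (corrPairs.comp hx hab.right)
    exact keyN _ h1 (Sys.NOp.comp_left (corrPairs.op hy)
      (Sys.NOp.comp_right hx1 (corrPairs.op hab.right)))
  · intro v hv
    obtain ⟨m, hm, x, hx, rfl⟩ := mem_cyc.1 hv
    exact Submodule.add_mem _ (pre_mono hMN hm) (hpre N x hx _ hbN)

/-- **Transport of a chain.** -/
theorem Chain.transport {a : (W.H Q →ₗ[W.K] W.H P) × (T.M Q →ₗ[W.K] T.M P)}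
    {b : (W.H P →ₗ[W.K] W.H Q) × (T.M P →ₗ[W.K] T.M Q)} (hab : Retract T Q P a b)
    {M : Submodule W.K (T.M P)} {L : List (Module.End W.K (W.H P))} (h : Chain T P M L) :
    Chain T Q (pre T P Q M) (L.map fun g => b.1 ∘ₗ g ∘ₗ a.1) := by
  have hpre : ∀ M : Submodule W.K (T.M P), Stab T Q (pre T P Q M) := by
    intro M x hx m hm y hy
    have h1 := hm _ (corrPairs.comp hy hx)
    exact h1
  induction h with
  | nil h => exact Chain.nil (hpre _)
  | @cons M₀ M N g L h₀ hle hs hc ih =>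
    obtain ⟨N', hs', hle'⟩ := hs.transport hab
    rw [List.map_cons]
    exact Chain.cons (hpre _) (pre_mono hle) hs' (ih.mono hs'.stabN hle')

lemma finrank_transport {a : W.H Q →ₗ[W.K] W.H P} {b : W.H P →ₗ[W.K] W.H Q}
    (hab : a ∘ₗ b = LinearMap.id) (g : Module.End W.K (W.H P)) :
    finrank W.K (LinearMap.range (b ∘ₗ g ∘ₗ a)) = finrank W.K (LinearMap.range g) := by
  have hv' : LinearMap.range a = ⊤ := by
    rw [LinearMap.range_eq_top]
    intro x
    exact ⟨b x, congrArg (fun f => f x) hab⟩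
  have hu' : Function.Injective b := by
    intro x y h
    have h1 : a (b x) = a (b y) := by rw [h]
    have h2 : ∀ x, a (b x) = x := fun x => congrArg (fun f => f x) hab
    rwa [h2, h2] at h1
  have h1 : LinearMap.range (b ∘ₗ g ∘ₗ a) = (LinearMap.range g).map b := by
    rw [LinearMap.range_comp, LinearMap.range_comp_of_range_eq_top _ hv']
  rw [h1]
  exact (Submodule.equivMapOfInjective b hu' _).finrank_eq.symm

lemma len_transport {a : W.H Q →ₗ[W.K] W.H P} {b : W.H P →ₗ[W.K] W.H Q}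
    (hab : a ∘ₗ b = LinearMap.id) (L : List (Module.End W.K (W.H P))) :
    len (L.map fun g => b ∘ₗ g ∘ₗ a) = len L := by
  rw [len, len, List.map_map]
  congr 1
  apply List.map_congr_left
  intro g _
  exact finrank_transport hab g

lemma r_transport {a : W.H Q →ₗ[W.K] W.H P} (ha : a ∈ (algSys W).Op Q P)
    {b : W.H P →ₗ[W.K] W.H Q} (hb : b ∈ (algSys W).Op P Q)
    (hab : a ∘ₗ b = LinearMap.id) {g : Module.End W.K (W.H P)} (hg : g ∈ (algSys W).Op P P)
    (Z : 𝒱.Obj) :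
    (algSys W).r Q (b ∘ₗ g ∘ₗ a) Z = (algSys W).r P g Z := by
  apply le_antisymm
  · exact r_factor (algSys W) hg hb ha Z
  · have h1 := r_factor (algSys W) (P := Q) (Q := P) (g := b ∘ₗ g ∘ₗ a)
      (Sys.Op.comp hb (Sys.Op.comp hg ha)) ha hb Z
    have e : a ∘ₗ (b ∘ₗ g ∘ₗ a) ∘ₗ b = g := by
      have e' : a ∘ₗ (b ∘ₗ g ∘ₗ a) ∘ₗ b = (a ∘ₗ b) ∘ₗ g ∘ₗ (a ∘ₗ b) := by
        simp only [LinearMap.comp_assoc]
      rw [e', hab, LinearMap.id_comp, LinearMap.comp_id]
    rwa [e] at h1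

lemma rsum_transport {a : W.H Q →ₗ[W.K] W.H P} (ha : a ∈ (algSys W).Op Q P)
    {b : W.H P →ₗ[W.K] W.H Q} (hb : b ∈ (algSys W).Op P Q)
    (hab : a ∘ₗ b = LinearMap.id) {L : List (Module.End W.K (W.H P))}
    (hL : ∀ g ∈ L, g ∈ (algSys W).Op P P) (Z : 𝒱.Obj) :
    rsum W Q (L.map fun g => b ∘ₗ g ∘ₗ a) Z = rsum W P L Z := by
  rw [rsum, rsum, List.map_map]
  congr 1
  apply List.map_congr_left
  intro g hg
  exact r_transport ha hb hab (hL g hg) Z

end Pool.Agent.Q56.XL
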