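import Pool.Agent.Q56.XL.Hom

/-!
# The exact law for natural maps, final form
-/

set_option autoImplicit false

open CategoryTheory AlgebraicGeometry Filter Topology ENNReal

universe u v w

namespace Pool.Agent.Q56.XL

open Module
open Pool.Agent.H914 Pool.Agent.H914.VarClass Pool.Agent.H914.VarClass.Obj
  Pool.Agent.H914.WeilCohomology Pool.Agent.Y133.Half Pool.Agent.Q55.Rate
  Pool.Agent.H281R3.HT Pool.Agent.Q56.ZO

variable {k : Type u} [Field k] {𝒱 : VarClass k} {ops : CycleOps 𝒱}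
  {W : WeilCohomology.{u, v} ops} {X Y Z P Q : 𝒱.Obj} {T A B : CycTheory.{u, v, w} W}

/-- The exact law for theories. -/
theorem exactLaw_theory (hW : NumTrivialNilpotent W X) (hT : PairNilpotent T X) :
    ∃ N : ℕ∞, ExactLaw W X (fun Y => dimE W.K (T.M Y)) N ∧
      (N = 0 ↔ ∀ n, Subsingleton (T.M (pw X n))) ∧
      ∀ d : ℕ, VanishesBelow T X d → N = 0 ∨ (d : ℕ∞) ≤ N := by
  obtain ⟨N, h1, h2, h3, h4⟩ := exact_law hW hT
  have hcyc : ∀ Z : 𝒱.Obj, cycRank ops Z = numDim W Z := fun Z => by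
    rw [numDim_eq, numDim_eq_cycRank]
  refine ⟨N, ⟨by simpa only [hcyc] using h1, by simpa only [hcyc] using h2, fun hN => ?_⟩, h3, h4⟩
  obtain ⟨m, L, h5, h6, h7⟩ := represented hW hT h1 hN
  have h8 : ∀ g : Module.End W.K (W.H (pw X m)),
      ∃ l : List (W.K × ((pw X m).prod (pw X m)).Cycles),
      g ∈ (algSys W).Op (pw X m) (pw X m) → PureList W l ∧ ∀ a, g a = actH W l a := by
    intro g
    by_cases hg : g ∈ (algSys W).Op (pw X m) (pw X m)
    · obtain ⟨c, hc, rfl⟩ := Sys.mem_Op.1 hg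
      obtain ⟨l, hl, h⟩ := exists_list_of_mem hc
      exact ⟨l, fun _ => ⟨hl, h⟩⟩
    · exact ⟨[], fun h => absurd h hg⟩
  choose γ hγ using h8
  refine ⟨m, L.map γ, fun c hc => ?_, ?_, fun n => (h7 n).trans ?_⟩
  · obtain ⟨g, hg, rfl⟩ := List.mem_map.1 hc
    obtain ⟨e1, e2, e3, -⟩ := h5 g hg
    obtain ⟨e4, e5⟩ := hγ g e1
    refine ⟨e4, fun a => ?_, ?_⟩
    · rw [← e5, ← e5]
      exact congrArg (fun f : Module.End W.K (W.H (pw X m)) => f a) e2
    · by_contra h
      push Not at h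
      exact e3 (LinearMap.ext fun a => (e5 a).trans (h a))
  · have e : (L.map γ).map (fun l => factorRank W l) =
        L.map fun g => finrank W.K (LinearMap.range g) := by
      rw [List.map_map]
      refine List.map_congr_left fun g hg => ?_
      obtain ⟨e4, e5⟩ := hγ g (h5 g hg).1
      have e6 : actH W (γ g) = g := (funext e5).symm
      change dimOf W (Set.range (actH W (γ g))) = _
      rw [e6, dimOf, Set.finrank, ← LinearMap.coe_range, Submodule.span_eq]
    rw [e]
    exact h6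
  · have e : (L.map γ).map (fun l => homRank W l (pw X n)) =
        L.map (fun g => (algSys W).r (pw X m) g (pw X n)) := by
      rw [List.map_map]
      refine List.map_congr_left fun g hg => ?_
      obtain ⟨e4, e5⟩ := hγ g (h5 g hg).1
      exact homRank_eq (h5 g hg).1 (h5 g hg).2.1 e5 (pw X n)
    rw [rsum, e]

/-- The exact law for kernels and cokernels. -/
theorem exactLaw_map (φ : NatMap A B) (hW : NumTrivialNilpotent W X)
    (hA : HomTrivialNilpotent A X) (hB : HomTrivialNilpotent B X) :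
    (∃ N : ℕ∞, ExactLaw W X (dimKer φ) N ∧
      (N = 0 ↔ ∀ n, Function.Injective (φ.f (X := pw X n))) ∧
      ∀ d : ℕ, InjectiveBelow φ X d → N = 0 ∨ (d : ℕ∞) ≤ N) ∧
    ∃ N : ℕ∞, ExactLaw W X (dimCoker φ) N ∧
      (N = 0 ↔ ∀ n, Function.Surjective (φ.f (X := pw X n))) ∧
      ∀ d : ℕ, SurjectiveBelow φ X d → N = 0 ∨ (d : ℕ∞) ≤ N := by
  constructor
  · obtain ⟨N, h1, h3, h4⟩ := exactLaw_theory (T := kerT φ) hW
      (pairNilpotent (homTrivial_sub (kerIncl φ) (kerIncl_injective φ) hA))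
    have e : dimKer φ = fun Y => dimE W.K ((kerT φ).M Y) := funext fun Y => dimKer_eq φ Y
    rw [← e] at h1
    exact ⟨N, h1, h3.trans (forall_congr' fun n => kerT_subsingleton φ _),
      fun d hd => h4 d (kerT_vanishes hA hd)⟩
  · obtain ⟨N, h1, h3, h4⟩ := exactLaw_theory (T := cokT φ) hW
      (pairNilpotent (homTrivial_quot (cokProj φ) (cokProj_surjective φ) hB))
    have e : dimCoker φ = fun Y => dimE W.K ((cokT φ).M Y) := funext fun Y => dimCoker_eq φ Y
    rw [← e] at h1
    exact ⟨N, h1, h3.trans (forall_congr' fun n => cokT_subsingleton φ _),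
      fun d hd => h4 d (cokT_vanishes hB hd)⟩

end Pool.Agent.Q56.XL
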