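import Pool.Agent.Q56.ZO.Defs

/-!
# The kernel and the cokernel of a natural map: definitions
-/

set_option autoImplicit false

open CategoryTheory AlgebraicGeometry

universe u v w

namespace Pool.Agent.Q56.XL

open Pool.Agent.H914 Pool.Agent.H914.VarClass Pool.Agent.H914.VarClass.Obj
  Pool.Agent.H914.WeilCohomology Pool.Agent.Y133.Half Pool.Agent.Q55.Rate Pool.Agent.Q56.ZO

section Gen

variable {V : Type*} (K : Type*) [Field K] [AddCommGroup V] [Module K V]

/-- The dimension (a natural number or `∞`) of the subspace `s` of `V`: the supremum of the numbers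
`p` such that `s` contains `p` linearly independent elements. -/
noncomputable def dimInside (s : Set V) : ℕ∞ :=
  ⨆ (p : ℕ) (_ : ∃ a : Fin p → V, LinearIndependent K a ∧ ∀ i, a i ∈ s), (p : ℕ∞)

/-- The dimension (a natural number or `∞`) of `V` modulo the subspace `s`: the supremum of the
numbers `q` such that there are `q` elements of `V` which are linearly independent modulo `s`. -/
noncomputable def dimModulo (s : Set V) : ℕ∞ :=
  ⨆ (q : ℕ) (_ : ∃ b : Fin q → V, ∀ c : Fin q → K, ∑ i, c i • b i ∈ s → c = 0), (q : ℕ∞)

end Gen

variable {k : Type u} [Field k] {𝒱 : VarClass k} {ops : CycleOps 𝒱}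
  {W : WeilCohomology.{u, v} ops} {A B : CycTheory.{u, v, w} W}

/-- The dimension (a natural number or `∞`) of the kernel of the natural map `φ` at `Y`. -/
noncomputable def dimKer (φ : NatMap A B) (Y : 𝒱.Obj) : ℕ∞ :=
  dimInside W.K {a : A.M Y | φ.f a = 0}

/-- The dimension (a natural number or `∞`) of the cokernel of the natural map `φ` at `Y`. -/
noncomputable def dimCoker (φ : NatMap A B) (Y : 𝒱.Obj) : ℕ∞ :=
  dimModulo W.K {b : B.M Y | ∃ a : A.M Y, φ.f a = b}

/-- The natural map `φ : A → B` is injective on all direct factors of rank less than `d` of the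
powers of `X`: if a linear combination of correspondences from a power of `X` to itself is
idempotent on the cohomology and on `A`, and has rank less than `d` on the cohomology, then `φ` is
injective on its image on `A`. -/
def InjectiveBelow (φ : NatMap A B) (X : 𝒱.Obj) (d : ℕ) : Prop :=
  ∀ (m : ℕ) (l : List (W.K × ((pw X m).prod (pw X m)).Cycles)), PureList W l →
    (∀ a, actH W l (actH W l a) = actH W l a) → (∀ a, actT A l (actT A l a) = actT A l a) →
    Set.finrank W.K (Set.range (actH W l)) < d → ∀ a, φ.f (actT A l a) = 0 → actT A l a = 0

/-- The natural map `φ : A → B` is surjective on all direct factors of rank less than `d` of the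
powers of `X`: if a linear combination of correspondences from a power of `X` to itself is
idempotent on the cohomology and on `B`, and has rank less than `d` on the cohomology, then its image
on `B` is contained in the image of `φ`. -/
def SurjectiveBelow (φ : NatMap A B) (X : 𝒱.Obj) (d : ℕ) : Prop :=
  ∀ (m : ℕ) (l : List (W.K × ((pw X m).prod (pw X m)).Cycles)), PureList W l →
    (∀ a, actH W l (actH W l a) = actH W l a) → (∀ b, actT B l (actT B l b) = actT B l b) →
    Set.finrank W.K (Set.range (actH W l)) < d → ∀ b, ∃ a, φ.f a = actT B l b

end Pool.Agent.Q56.XL
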