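import Pool.Agent.Q56.XL.Law
import Pool.Agent.Q56.XL.NatDefs
import Pool.Agent.Q56.ZO.Reg

/-!
# The exact law for the kernel and the cokernel of a natural map
-/

set_option autoImplicit false

open CategoryTheory AlgebraicGeometry Filter Topology ENNReal

universe u v w

namespace Pool.Agent.Q56.XL

open Module
open Pool.Agent.H914 Pool.Agent.H914.VarClass Pool.Agent.H914.VarClass.Obj
  Pool.Agent.H914.WeilCohomology Pool.Agent.Y133.Half Pool.Agent.Q55.Rate
  Pool.Agent.H281R3.HT Pool.Agent.Q56.ZO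

variable {k : Type u} [Field k] {𝒱 : VarClass k} {ops : CycleOps 𝒱}
  {W : WeilCohomology.{u, v} ops} {X Y Z P Q : 𝒱.Obj} {A B : CycTheory.{u, v, w} W}

/-- The kernel of a natural map. -/
def kerT (φ : NatMap A B) : CycTheory.{u, v, w} W where
  M X := LinearMap.ker (φ.lin X)
  act {X Y} Γ m := ⟨A.act Γ m, ker_act φ Γ m.2⟩
  act_add Γ m n := Subtype.ext (A.act_add Γ _ _)
  act_smul Γ c m := Subtype.ext (A.act_smul Γ c _)
  add_act Γ Δ m := Subtype.ext (A.add_act Γ Δ _)
  act_comp {X Y Z p q Γ Δ} hΓ hΔ m := by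
    have h1 := A.act_comp hΓ hΔ (m : A.M X)
    split_ifs at h1 ⊢ with h
    · exact Subtype.ext h1
    · exact Subtype.ext h1
  act_diag m := Subtype.ext (A.act_diag _)

/-- The cokernel of a natural map. -/
def cokT (φ : NatMap A B) : CycTheory.{u, v, w} W where
  M X := B.M X ⧸ LinearMap.range (φ.lin X)
  act {X Y} Γ m := Submodule.mapQ _ _ (B.actL Γ) (range_act φ Γ) m
  act_add Γ m n := map_add _ _ _
  act_smul Γ c m := map_smul _ _ _
  add_act Γ Δ m := by
    obtain ⟨b, hb⟩ := Submodule.mkQ_surjective _ m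
    rw [← hb]
    exact congrArg (Submodule.mkQ _) (B.add_act Γ Δ b)
  act_comp {X Y Z p q Γ Δ} hΓ hΔ m := by
    obtain ⟨b, hb⟩ := Submodule.mkQ_surjective _ m
    have h2 := B.act_comp hΓ hΔ b
    have h3 := congrArg (LinearMap.range (φ.lin Z)).mkQ h2
    split_ifs at h3 ⊢ with h
    · rw [← hb]
      exact h3
    · rw [← hb]
      exact h3.trans (map_zero _)
  act_diag m := by
    obtain ⟨b, hb⟩ := Submodule.mkQ_surjective _ m
    rw [← hb]
    exact congrArg (Submodule.mkQ _) (B.act_diag b)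

/-- The inclusion of the kernel. -/
def kerIncl (φ : NatMap A B) : NatMap (kerT φ) A where
  f {X} m := ((show LinearMap.ker (φ.lin X) from m : LinearMap.ker (φ.lin X)) : A.M X)
  f_add _ _ := rfl
  f_smul _ _ := rfl
  nat _ _ := rfl

/-- The projection to the cokernel. -/
def cokProj (φ : NatMap A B) : NatMap B (cokT φ) where
  f {X} m := (LinearMap.range (φ.lin X)).mkQ m
  f_add _ _ := map_add _ _ _
  f_smul _ _ := map_smul _ _ _
  nat _ _ := rfl

lemma kerIncl_injective (φ : NatMap A B) (X : 𝒱.Obj) : Function.Injective ((kerIncl φ).lin X) :=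
  Subtype.val_injective

lemma cokProj_surjective (φ : NatMap A B) (X : 𝒱.Obj) :
    Function.Surjective ((cokProj φ).lin X) :=
  Submodule.mkQ_surjective _

section Gen

variable {S T : CycTheory.{u, v, w} W}

lemma nat_actT (ψ : NatMap S T) (l : List (W.K × (X.prod Y).Cycles)) (a : S.M X) :
    ψ.lin Y (actT S l a) = actT T l (ψ.lin X a) := by
  induction l with
  | nil => exact map_zero _
  | cons y l ih =>
    rw [actT, List.map_cons, List.sum_cons, map_add, map_smul, actT, List.map_cons, List.sum_cons]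
    exact congrArg₂ (· + ·) (congrArg (y.1 • ·) (ψ.lin_nat y.2 a)) ih

lemma nat_iterate (ψ : NatMap S T) (l : List (W.K × (X.prod X).Cycles)) (n : ℕ) (a : S.M X) :
    ψ.lin X ((actT S l)^[n] a) = (actT T l)^[n] (ψ.lin X a) := by
  induction n generalizing a with
  | zero => rfl
  | succ n ih =>
    rw [Function.iterate_succ_apply, Function.iterate_succ_apply, ih, nat_actT]

lemma homTrivial_sub (ψ : NatMap S T) (hψ : ∀ X, Function.Injective (ψ.lin X))
    (h : HomTrivialNilpotent T X) : HomTrivialNilpotent S X := by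
  intro m l hl h0
  obtain ⟨N, hN⟩ := h m l hl h0
  refine ⟨N, fun t => hψ _ ?_⟩
  rw [nat_iterate, hN, map_zero]

lemma homTrivial_quot (ψ : NatMap S T) (hψ : ∀ X, Function.Surjective (ψ.lin X))
    (h : HomTrivialNilpotent S X) : HomTrivialNilpotent T X := by
  intro m l hl h0
  obtain ⟨N, hN⟩ := h m l hl h0
  refine ⟨N, fun t => ?_⟩
  obtain ⟨s, rfl⟩ := hψ _ t
  rw [← nat_iterate, hN, map_zero]

/-- The operators `f` and `g` are compatible with the natural map. -/
def Inter (ψ : NatMap S T) (X : 𝒱.Obj) (f : Module.End W.K (S.M X)) (g : Module.End W.K (T.M X)) :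
    Prop :=
  ∀ a, ψ.lin X (f a) = g (ψ.lin X a)

lemma Inter.one (ψ : NatMap S T) (X : 𝒱.Obj) : Inter ψ X 1 1 := fun _ => rfl

lemma Inter.sub {ψ : NatMap S T} {f f' : Module.End W.K (S.M X)} {g g' : Module.End W.K (T.M X)}
    (h : Inter ψ X f g) (h' : Inter ψ X f' g') : Inter ψ X (f - f') (g - g') := by
  intro a
  rw [LinearMap.sub_apply, map_sub, h, h', LinearMap.sub_apply]

lemma Inter.pow {ψ : NatMap S T} {f : Module.End W.K (S.M X)} {g : Module.End W.K (T.M X)}
    (h : Inter ψ X f g) (n : ℕ) : Inter ψ X (f ^ n) (g ^ n) := by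
  induction n with
  | zero => exact Inter.one ψ X
  | succ n ih =>
    intro a
    rw [pow_succ, pow_succ, Module.End.mul_apply, Module.End.mul_apply, ih, h]

lemma Inter.lift {ψ : NatMap S T} {f : Module.End W.K (S.M X)} {g : Module.End W.K (T.M X)}
    (h : Inter ψ X f g) (n : ℕ) :
    Inter ψ X (1 - (1 - f ^ (n + 1)) ^ (n + 1)) (1 - (1 - g ^ (n + 1)) ^ (n + 1)) :=
  (Inter.one ψ X).sub (((Inter.one ψ X).sub (h.pow (n + 1))).pow (n + 1))

/-- Lifting of idempotents: a pair which is idempotent on the cohomology. -/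
lemma exists_idem (hT : PairNilpotent T X) {m : ℕ}
    {y : Module.End W.K (W.H (pw X m)) × Module.End W.K (T.M (pw X m))}
    (hy : y ∈ corrPairs T (pw X m) (pw X m)) (hy1 : y.1 * y.1 = y.1) :
    ∃ N : ℕ, (y.1, 1 - (1 - y.2 ^ (N + 1)) ^ (N + 1)) ∈ corrPairs T (pw X m) (pw X m) ∧
      (1 - (1 - y.2 ^ (N + 1)) ^ (N + 1)) * (1 - (1 - y.2 ^ (N + 1)) ^ (N + 1)) =
        1 - (1 - y.2 ^ (N + 1)) ^ (N + 1) := by
  have h0 : y ∈ pairAlg T (pw X m) := hy
  have h1 : y - y ^ 2 ∈ pairAlg T (pw X m) :=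
    Subalgebra.sub_mem _ h0 (Subalgebra.pow_mem _ h0 2)
  have h2 : (y - y ^ 2).1 = 0 := by
    rw [Prod.fst_sub, Prod.pow_fst, pow_two, hy1, sub_self]
  obtain ⟨N, hN⟩ := hT m _ h1 h2
  have h3 : (y - y ^ 2) ^ (N + 1) = 0 := by
    refine Prod.ext ?_ ?_
    · rw [Prod.pow_fst, h2, zero_pow (Nat.succ_ne_zero N)]; rfl
    · rw [Prod.pow_snd, pow_succ, hN, zero_mul]; rfl
  have h4 := isIdempotentElem_one_sub_one_sub_pow_pow y (N + 1) h3
  set e := 1 - (1 - y ^ (N + 1)) ^ (N + 1) with he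
  have h5 : e ∈ pairAlg T (pw X m) :=
    Subalgebra.sub_mem _ (Subalgebra.one_mem _) (Subalgebra.pow_mem _
      (Subalgebra.sub_mem _ (Subalgebra.one_mem _) (Subalgebra.pow_mem _ h0 _)) _)
  have h6 : e.1 = y.1 := by
    rw [he, Prod.fst_sub, Prod.pow_fst, Prod.fst_sub, Prod.pow_fst, Prod.fst_one]
    exact idem_lift hy1 N
  have h7 : e.2 = 1 - (1 - y.2 ^ (N + 1)) ^ (N + 1) := by
    rw [he, Prod.snd_sub, Prod.pow_snd, Prod.snd_sub, Prod.pow_snd, Prod.snd_one]
  refine ⟨N, ?_, ?_⟩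
  · have h8 : (y.1, 1 - (1 - y.2 ^ (N + 1)) ^ (N + 1)) = e := Prod.ext h6.symm h7.symm
    rw [h8]
    exact h5
  · rw [← h7]
    exact congrArg Prod.snd h4

end Gen

/-- Vanishing of the kernel on the direct factors of small rank. -/
lemma kerT_vanishes {φ : NatMap A B} (hA : HomTrivialNilpotent A X) {d : ℕ}
    (hd : InjectiveBelow φ X d) : VanishesBelow (kerT φ) X d := by
  intro m x hx hxx hr
  obtain ⟨l, hl, h1, h2⟩ := exists_list hx
  obtain ⟨y, hy, f1, f2⟩ := exists_pair (T := A) hl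
  have hxy : y.1 = x.1 := LinearMap.ext fun a => (f1 a).trans (h1 a).symm
  have hx1 : x.1 * x.1 = x.1 := congrArg Prod.fst hxx
  have hx2 : x.2 * x.2 = x.2 := congrArg Prod.snd hxx
  have hI : Inter (kerIncl φ) (pw X m) x.2 y.2 := by
    intro a
    rw [h2, f2, nat_actT]
  obtain ⟨N, he, hee⟩ := exists_idem (pairNilpotent hA) hy (by rw [hxy]; exact hx1)
  have hI' := hI.lift N
  rw [idem_lift hx2 N] at hI'
  obtain ⟨l', hl', g1, g2⟩ := exists_list he
  have h3 := hd m l' hl' (fun a => by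
      rw [← g1, ← g1]
      change y.1 (y.1 a) = y.1 a
      rw [hxy]
      exact congrArg (fun f : Module.End W.K (W.H (pw X m)) => f a) hx1)
    (fun a => by
      rw [← g2, ← g2]
      exact congrArg (fun f : Module.End W.K (A.M (pw X m)) => f a) hee)
    (by rw [finrank_range_eq g1]; change finrank W.K (LinearMap.range y.1) < d; rw [hxy]; exact hr)
  apply LinearMap.ext
  intro a
  apply kerIncl_injective φ
  rw [hI' a, LinearMap.zero_apply, map_zero]
  have h4 := h3 ((kerIncl φ).lin _ a)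
  rw [← g2] at h4
  apply h4
  have h5 : (1 - (1 - y.2 ^ (N + 1)) ^ (N + 1)) ((kerIncl φ).lin _ a) =
    (kerIncl φ).lin _ (x.2 a) := (hI' a).symm
  exact (congrArg (φ.lin _) h5).trans (LinearMap.mem_ker.1
    (show LinearMap.ker (φ.lin (pw X m)) from x.2 a).2)

/-- Vanishing of the cokernel on the direct factors of small rank. -/
lemma cokT_vanishes {φ : NatMap A B} (hB : HomTrivialNilpotent B X) {d : ℕ}
    (hd : SurjectiveBelow φ X d) : VanishesBelow (cokT φ) X d := by
  intro m x hx hxx hr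
  obtain ⟨l, hl, h1, h2⟩ := exists_list hx
  obtain ⟨y, hy, f1, f2⟩ := exists_pair (T := B) hl
  have hxy : y.1 = x.1 := LinearMap.ext fun a => (f1 a).trans (h1 a).symm
  have hx1 : x.1 * x.1 = x.1 := congrArg Prod.fst hxx
  have hx2 : x.2 * x.2 = x.2 := congrArg Prod.snd hxx
  have hI : Inter (cokProj φ) (pw X m) y.2 x.2 := by
    intro a
    rw [h2, f2, nat_actT]
  obtain ⟨N, he, hee⟩ := exists_idem (pairNilpotent hB) hy (by rw [hxy]; exact hx1)
  have hI' := hI.lift N
  rw [idem_lift hx2 N] at hI'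
  obtain ⟨l', hl', g1, g2⟩ := exists_list he
  have h3 := hd m l' hl' (fun a => by
      rw [← g1, ← g1]
      change y.1 (y.1 a) = y.1 a
      rw [hxy]
      exact congrArg (fun f : Module.End W.K (W.H (pw X m)) => f a) hx1)
    (fun a => by
      rw [← g2, ← g2]
      exact congrArg (fun f : Module.End W.K (B.M (pw X m)) => f a) hee)
    (by rw [finrank_range_eq g1]; change finrank W.K (LinearMap.range y.1) < d; rw [hxy]; exact hr)
  apply LinearMap.ext
  intro a
  obtain ⟨b, rfl⟩ := cokProj_surjective φ _ a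
  rw [← hI' b, LinearMap.zero_apply]
  obtain ⟨a', ha'⟩ := h3 b
  rw [← g2] at ha'
  exact (Submodule.Quotient.mk_eq_zero _).2 ⟨a', ha'⟩

lemma kerT_subsingleton (φ : NatMap A B) (P : 𝒱.Obj) :
    Subsingleton ((kerT φ).M P) ↔ Function.Injective (φ.f (X := P)) := by
  constructor
  · intro h
    change Function.Injective (φ.lin P)
    rw [← LinearMap.ker_eq_bot, LinearMap.ker_eq_bot']
    intro a ha
    exact congrArg (fun x : LinearMap.ker (φ.lin P) => (x : A.M P))
      (h.elim (⟨a, ha⟩ : LinearMap.ker (φ.lin P)) (0 : LinearMap.ker (φ.lin P)))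
  · intro hi
    refine ⟨fun x y => Subtype.ext (hi ?_)⟩
    exact (LinearMap.mem_ker.1 (show LinearMap.ker (φ.lin P) from x).2).trans
      (LinearMap.mem_ker.1 (show LinearMap.ker (φ.lin P) from y).2).symm

lemma cokT_subsingleton (φ : NatMap A B) (P : 𝒱.Obj) :
    Subsingleton ((cokT φ).M P) ↔ Function.Surjective (φ.f (X := P)) := by
  change Subsingleton (B.M P ⧸ LinearMap.range (φ.lin P)) ↔ Function.Surjective (φ.lin P)
  rw [Submodule.Quotient.subsingleton_iff, LinearMap.range_eq_top]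

/-- Dimensions as suprema. -/
lemma dimE_eq_iSup (K : Type*) (V : Type*) [Field K] [AddCommGroup V] [Module K V]
    (s : ℕ → Prop) (hs : ∀ p, s p ↔ (p : Cardinal) ≤ Module.rank K V) :
    (⨆ (p : ℕ) (_ : s p), (p : ℕ∞)) = dimE K V := by
  apply le_antisymm
  · refine iSup_le fun p => iSup_le fun hp => ?_
    rw [dimE, Cardinal.natCast_le_toENat]
    exact (hs p).1 hp
  · rw [← ENat.forall_natCast_le_iff_le]
    intro p hp
    rw [dimE, Cardinal.natCast_le_toENat] at hp
    exact le_iSup_of_le p (le_iSup_of_le ((hs p).2 hp) le_rfl)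

lemma dimKer_eq (φ : NatMap A B) (Y : 𝒱.Obj) : dimKer φ Y = dimE W.K ((kerT φ).M Y) := by
  refine dimE_eq_iSup W.K (LinearMap.ker (φ.lin Y)) _ fun p => ?_
  constructor
  · rintro ⟨a, ha, h0⟩
    have h0' : ∀ i, a i ∈ LinearMap.ker (φ.lin Y) := h0
    have h1 : LinearIndependent W.K (fun i => (⟨a i, h0' i⟩ : LinearMap.ker (φ.lin Y))) :=
      LinearIndependent.of_comp (Submodule.subtype _) ha
    simpa using h1.cardinal_lift_le_rank
  · intro hp
    obtain ⟨a, ha⟩ := exists_family hp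
    exact ⟨fun i => a i, ha.map' (Submodule.subtype _) (Submodule.ker_subtype _),
      fun i => LinearMap.mem_ker.1 (a i).2⟩

lemma dimCoker_eq (φ : NatMap A B) (Y : 𝒱.Obj) : dimCoker φ Y = dimE W.K ((cokT φ).M Y) := by
  refine dimE_eq_iSup W.K (B.M Y ⧸ LinearMap.range (φ.lin Y)) _ fun p => ?_
  have key : ∀ (b : Fin p → B.M Y) (c : Fin p → W.K), (∃ a : A.M Y, φ.f a = ∑ i, c i • b i) ↔
      ∑ i, c i • (LinearMap.range (φ.lin Y)).mkQ (b i) = 0 := by
    intro b c
    have h1 : ∑ i, c i • (LinearMap.range (φ.lin Y)).mkQ (b i) =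
        (LinearMap.range (φ.lin Y)).mkQ (∑ i, c i • b i) := by
      rw [map_sum]
      refine Finset.sum_congr rfl fun i _ => ?_
      rw [map_smul]
    rw [h1, Submodule.mkQ_apply, Submodule.Quotient.mk_eq_zero]
    rfl
  constructor
  · rintro ⟨b, hb⟩
    have h1 : LinearIndependent W.K (fun i => (LinearMap.range (φ.lin Y)).mkQ (b i)) := by
      rw [Fintype.linearIndependent_iff]
      intro c hc i
      exact congrFun (hb c ((key b c).2 hc)) i
    simpa using h1.cardinal_lift_le_rank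
  · intro hp
    obtain ⟨b', hb'⟩ := exists_family hp
    choose b hb using fun i => Submodule.mkQ_surjective _ (b' i)
    refine ⟨b, fun c hc => funext fun i => Fintype.linearIndependent_iff.1 hb' c ?_ i⟩
    have h2 := (key b c).1 hc
    simpa only [hb] using h2

end Pool.Agent.Q56.XL
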