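import Pool.Agent.Q56.XL.Chain
import Pool.Agent.Q56.XL.Nat

/-!
# The exact law with representing motives
-/

set_option autoImplicit false
set_option linter.unusedSectionVars false

open CategoryTheory AlgebraicGeometry Polynomial Filter Topology ENNReal

universe u v w

namespace Pool.Agent.Q56.XL

open Module
open Pool.Agent.H914 Pool.Agent.H914.VarClass Pool.Agent.H914.VarClass.Obj
  Pool.Agent.H914.WeilCohomology Pool.Agent.Y133.Half Pool.Agent.Q55.Rate
  Pool.Agent.H281R3.HT Pool.Agent.Q56.ZO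

variable {k : Type u} [Field k] {𝒱 : VarClass k} {ops : CycleOps 𝒱}
  {W : WeilCohomology.{u, v} ops} {T : CycTheory.{u, v, w} W} {X Y Z P Q : 𝒱.Obj}

/-- `X^(m+1)` is a direct factor of `X^(m+2)`. -/
lemma exists_retract_one {l : W.H X} (hl : l ∈ (algSys W).C X) (hl1 : W.tr X l = 1)
    (hT : PairNilpotent T X) (m : ℕ) : ∃ a b, Retract T (pw X (m + 1)) (pw X m) a b := by
  obtain ⟨u, hu, v, hv, huv⟩ := exists_section (algSys W) hl hl1 m
  obtain ⟨f, hf⟩ := corrPairs.lift T hu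
  obtain ⟨g, hg⟩ := corrPairs.lift T hv
  obtain ⟨y, hy1, hy2, hy⟩ : ∃ y : Module.End W.K (W.H (pw X m)) ×
      Module.End W.K (T.M (pw X m)), y.1 = v ∘ₗ u ∧ y.2 = g ∘ₗ f ∧ y ∈ pairAlg T (pw X m) :=
    ⟨(v ∘ₗ u, g ∘ₗ f), rfl, rfl, corrPairs.comp hg hf⟩
  have h1 : 1 - y ∈ pairAlg T (pw X m) := Subalgebra.sub_mem _ (Subalgebra.one_mem _) hy
  have h2 : (1 - y).1 = 0 := by
    rw [Prod.fst_sub, hy1, huv]
    exact sub_self _
  obtain ⟨n, hn⟩ := hT m _ h1 h2
  have h3 : (1 - y) ^ (n + 1) = 0 := by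
    refine Prod.ext ?_ ?_
    · rw [Prod.pow_fst, h2, zero_pow (Nat.succ_ne_zero n)]; rfl
    · rw [Prod.pow_snd, pow_succ, hn, zero_mul]; rfl
  set w := ∑ i ∈ Finset.range (n + 1), (1 - y) ^ i with hw
  have hwm : w ∈ pairAlg T (pw X m) :=
    Subalgebra.sum_mem _ fun i _ => Subalgebra.pow_mem _ h1 i
  have h4 : y * w = 1 := by
    have h5 := mul_neg_geom_sum (1 - y) (n + 1)
    rw [h3, sub_zero] at h5
    have h6 : 1 - (1 - y) = y := by abel
    rw [h6] at h5
    exact h5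
  have hwm' : w ∈ corrPairs T (pw X m) (pw X m) := hwm
  refine ⟨(v, g), (u ∘ₗ w.1, f ∘ₗ w.2), hg, corrPairs.comp hf hwm', ?_, ?_⟩
  · have h5 : y.1 * w.1 = 1 := congrArg Prod.fst h4
    rw [hy1] at h5
    change v ∘ₗ (u ∘ₗ w.1) = LinearMap.id
    rw [← LinearMap.comp_assoc]
    exact h5
  · have h5 : y.2 * w.2 = 1 := congrArg Prod.snd h4
    rw [hy2] at h5
    change g ∘ₗ (f ∘ₗ w.2) = LinearMap.id
    rw [← LinearMap.comp_assoc]
    exact h5

/-- Powers are direct factors of the higher powers. -/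
lemma exists_retract {l : W.H X} (hl : l ∈ (algSys W).C X) (hl1 : W.tr X l = 1)
    (hT : PairNilpotent T X) {m n : ℕ} (h : m ≤ n) :
    ∃ a b, Retract T (pw X n) (pw X m) a b := by
  induction n, h using Nat.le_induction with
  | base => exact ⟨_, _, Retract.refl T _⟩
  | succ n _ ih =>
    obtain ⟨a, b, h1⟩ := ih
    obtain ⟨a', b', h2⟩ := exists_retract_one hl hl1 hT n
    exact ⟨_, _, h2.trans h1⟩

lemma stab_bot (T : CycTheory.{u, v, w} W) (P : 𝒱.Obj) : Stab T P ⊥ := by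
  intro x _ m hm
  rw [(Submodule.mem_bot _).1 hm, map_zero]
  exact Submodule.zero_mem _

lemma Chain.rsum_le [FiniteDimensional W.K (T.M Z)] {M : Submodule W.K (T.M P)}
    {L : List (Module.End W.K (W.H P))} (h : Chain T P M L) :
    rsum W P L Z ≤ finrank W.K (T.M Z) := by
  have h1 := h.lower Z
  have h2 : ((rsum W P L Z : ℕ) : Cardinal.{w}) ≤ Module.rank W.K (T.M Z) :=
    le_trans (le_self_add) h1
  rw [← Module.finrank_eq_rank] at h2
  exact_mod_cast h2

lemma comap_bot_finrank {a : (W.H P →ₗ[W.K] W.H Z) × (T.M P →ₗ[W.K] T.M Z)}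
    {b : (W.H Z →ₗ[W.K] W.H P) × (T.M Z →ₗ[W.K] T.M P)} (hab : Retract T P Z a b) :
    finrank W.K ((⊥ : Submodule W.K (T.M P)).comap b.2) = 0 := by
  have h : (⊥ : Submodule W.K (T.M P)).comap b.2 = ⊥ := by
    rw [eq_bot_iff]
    intro t ht
    have h1 : b.2 t = 0 := ht
    have h2 := hab.apply t
    rw [h1, map_zero] at h2
    exact (Submodule.mem_bot _).2 h2.symm
  rw [h, finrank_bot]

/-- **Representation.** -/
theorem exists_representation {l : W.H X} (hl : l ∈ (algSys W).C X) (hl1 : W.tr X l = 1)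
    (hW : NumTrivialNilpotent W X) (hT : PairNilpotent T X)
    (hfin : ∀ n, FiniteDimensional W.K (T.M (pw X n))) (C : ℕ)
    (hC : ∀ (m : ℕ) (L : List (Module.End W.K (W.H (pw X m)))), Chain T (pw X m) ⊥ L →
      len L ≤ C) :
    ∃ (m : ℕ) (L : List (Module.End W.K (W.H (pw X m)))), Chain T (pw X m) ⊥ L ∧
      ∀ n, finrank W.K (T.M (pw X n)) = rsum W (pw X m) L (pw X n) := by
  set D : Set ℕ := {n | ∃ (m : ℕ) (L : List (Module.End W.K (W.H (pw X m)))),
    Chain T (pw X m) ⊥ L ∧ len L = n} with hD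
  have hne : D.Nonempty := ⟨_, 0, [], Chain.nil (stab_bot T _), rfl⟩
  have hb : BddAbove D := by
    refine ⟨C, ?_⟩
    rintro _ ⟨m, L, h, rfl⟩
    exact hC m L h
  obtain ⟨m, L, hL, hLs⟩ := Nat.sSup_mem hne hb
  have hmax : ∀ (m' : ℕ) (L' : List (Module.End W.K (W.H (pw X m')))), Chain T (pw X m') ⊥ L' →
      len L' ≤ len L := by
    intro m' L' h
    rw [hLs]
    exact le_csSup hb ⟨m', L', h, rfl⟩
  have hfull : ∀ (m' : ℕ) (L' : List (Module.End W.K (W.H (pw X m')))), Chain T (pw X m') ⊥ L' →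
      len L' = len L → FullChain T (pw X m') ⊥ L' := by
    intro m' L' h h'
    have := hfin m'
    rcases h.refine (fun u hu => hW m' u (isNumTrivialOp_iff.2 hu)) (hT m') with h1 | ⟨L₁, h1, h2⟩
    · exact h1
    · have := hmax m' L₁ h1
      omega
  refine ⟨m, L, hL, fun n => ?_⟩
  have := hfin n
  have := hfin m
  refine le_antisymm ?_ hL.rsum_le
  rcases le_total n m with h | h
  · obtain ⟨a, b, hab⟩ := exists_retract hl hl1 hT h
    have h1 := (hfull m L hL rfl).upper hab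
    rwa [comap_bot_finrank hab, zero_add] at h1
  · obtain ⟨a, b, hab⟩ := exists_retract hl hl1 hT h
    have h1 : Chain T (pw X n) ⊥ (L.map fun g => b.1 ∘ₗ g ∘ₗ a.1) :=
      (hL.transport hab).mono (stab_bot T _) bot_le
    have h2 := (hfull n _ h1 (len_transport hab.fst L)).upper (Retract.refl T (pw X n))
    rw [comap_bot_finrank (Retract.refl T (pw X n)), zero_add,
      rsum_transport (corrPairs.op hab.left) (corrPairs.op hab.right) hab.fst
        (fun g hg => (hL.mem g hg).1)] at h2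
    exact h2

/-- The sequence of dimensions is given by finitely many direct factors of a power of `X`. -/
def RepresentedBy (T : CycTheory.{u, v, w} W) (X : 𝒱.Obj) (N : ℕ∞) : Prop :=
  ∃ (m : ℕ) (L : List (Module.End W.K (W.H (pw X m)))),
    (∀ g ∈ L, g ∈ (algSys W).Op (pw X m) (pw X m) ∧ g ∘ₗ g = g ∧ g ≠ 0 ∧
      ∃ f : Module.End W.K (T.M (pw X m)), (g, f) ∈ corrPairs T (pw X m) (pw X m) ∧
        f * f = f ∧ f ≠ 0) ∧
    ((len L : ℕ) : ℕ∞) = N ∧
    ∀ n, dimE W.K (T.M (pw X n)) = ((rsum W (pw X m) L (pw X n) : ℕ) : ℕ∞)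

/-- **The exact law with representing motives.** -/
theorem represented (hW : NumTrivialNilpotent W X) (hT : PairNilpotent T X) {N : ℕ∞}
    (hN : Tendsto (fun n => ((dimE W.K (T.M (pw X n)) : ℕ∞) : ℝ≥0∞) / cycRank ops (pw X n)) atTop
        (𝓝 (N : ℝ≥0∞))) (hN' : N ≠ ⊤) : RepresentedBy T X N := by
  set S := algSys W with hS
  by_cases hZ : ∀ l ∈ S.C X, W.tr X l = 0
  · have h0 : ∀ n, Subsingleton (T.M (pw X n)) := subsingleton_of_tr hW hT hZ
    have h1 : ∀ n, dimE W.K (T.M (pw X n)) = 0 := fun n => by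
      have := h0 n
      exact dimE_zero
    simp only [h1, ENat.toENNReal_zero, ENNReal.zero_div] at hN
    have h2 := tendsto_nhds_unique hN tendsto_const_nhds
    have h3 : N = 0 := by
      rw [← ENat.toENNReal_zero] at h2
      exact ENat.toENNReal_inj.1 h2
    refine ⟨0, [], by simp, ?_, fun n => ?_⟩
    · rw [h3]; rfl
    · rw [h1]; rfl
  push Not at hZ
  obtain ⟨l', hl', hl'0⟩ := hZ
  obtain ⟨l, hl, hl1⟩ : ∃ l ∈ S.C X, W.tr X l = 1 :=
    ⟨(W.tr X l')⁻¹ • l', Submodule.smul_mem _ _ hl', by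
      rw [map_smul, smul_eq_mul, inv_mul_cancel₀ hl'0]⟩
  have h1 : (1 : W.H X) ≠ 0 := one_ne_zero_of (ne_zero_of_tr hl1)
  have hX : 0 < finrank W.K (W.H X) := by
    have : Nontrivial (W.H X) := ⟨⟨1, 0, h1⟩⟩
    exact Module.finrank_pos
  have hpos : ∀ n, 0 < S.al X n := by
    intro n
    obtain ⟨m, hm, hm1⟩ := S.exists_lam hl hl1 n
    refine S.a_pos (Sys.xp_mem_C S hm hm) ?_
    rw [tr_xp, hm1, mul_one]
  have hapos : ∀ n, 0 < S.a (pw X n) := by
    intro n
    obtain ⟨m, hm, hm1⟩ := S.exists_lam hl hl1 n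
    exact S.a_pos hm hm1
  have hB := ratios_of_nilpotent hW hpos
  have hcyc : ∀ n, cycRank ops (pw X n) = S.a (pw X n) := fun n => (numDim_eq_cycRank W _).symm
  have hfin : ∀ n, FiniteDimensional W.K (T.M (pw X n)) := by
    by_contra h
    push Not at h
    obtain ⟨m, hm⟩ := h
    have h2 : ∀ n ≥ m, ¬ FiniteDimensional W.K (T.M (pw X n)) := by
      intro n hn
      induction n, hn using Nat.le_induction with
      | base => exact hm
      | succ n _ ih => exact infinite_succ hl hl1 hT ih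
    have h3 : Tendsto (fun n => ((dimE W.K (T.M (pw X n)) : ℕ∞) : ℝ≥0∞) /
        cycRank ops (pw X n)) atTop (𝓝 ⊤) := by
      refine tendsto_const_nhds.congr' ?_
      filter_upwards [eventually_ge_atTop m] with n hn
      rw [dimE_top (h2 n hn), ENat.toENNReal_top, ENNReal.top_div_of_ne_top
        (ENNReal.natCast_ne_top _)]
    have h4 := tendsto_nhds_unique hN h3
    rw [← ENat.toENNReal_top] at h4
    exact hN' (ENat.toENNReal_inj.1 h4)
  have hdim : ∀ n, dimE W.K (T.M (pw X n)) = (finrank W.K (T.M (pw X n)) : ℕ∞) := fun n => by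
    have := hfin n
    exact dimE_eq
  obtain ⟨N₀, rfl⟩ := ENat.ne_top_iff_exists.1 hN'
  simp only [hdim, hcyc, ENat.toENNReal_coe] at hN
  have hlow : ∀ (m : ℕ) (L : List (Module.End W.K (W.H (pw X m)))), Chain T (pw X m) ⊥ L →
      ∀ ε : ℝ, 0 < ε → ∃ n₀, ∀ n ≥ n₀,
        ((len L : ℝ) - ε) * S.a (pw X n) ≤ finrank W.K (T.M (pw X n)) := by
    intro m L hL ε hε
    obtain ⟨n₀, h⟩ := lower_list S hl hl1 hB hX L
      (fun g hg => ⟨(hL.mem g hg).1, (hL.mem g hg).2.1⟩) ε hε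
    refine ⟨n₀, fun n hn => (h n hn).trans ?_⟩
    have := hfin n
    exact_mod_cast hL.rsum_le (Z := pw X n)
  have hC : ∀ (m : ℕ) (L : List (Module.End W.K (W.H (pw X m)))), Chain T (pw X m) ⊥ L →
      len L ≤ N₀ := by
    intro m L hL
    by_contra hlt
    rw [not_le] at hlt
    obtain ⟨n₀, h₀⟩ := hlow m L hL (1 / 2) (by norm_num)
    have h5 := (ENNReal.tendsto_toReal (ENNReal.natCast_ne_top N₀)).comp hN
    have h6 : ∀ᶠ n in atTop, (len L : ℝ) - 1 / 2 ≤
        (ENNReal.toReal ∘ fun n => (finrank W.K (T.M (pw X n)) : ℝ≥0∞) / S.a (pw X n)) n := by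
      filter_upwards [eventually_ge_atTop n₀] with n hn
      have h7 : (0 : ℝ) < S.a (pw X n) := by exact_mod_cast hapos n
      rw [Function.comp_apply, ENNReal.toReal_div, ENNReal.toReal_natCast, ENNReal.toReal_natCast,
        le_div_iff₀ h7]
      exact h₀ n hn
    have h8 := ge_of_tendsto h5 h6
    rw [ENNReal.toReal_natCast] at h8
    have h9 : ((N₀ : ℝ)) + 1 ≤ len L := by exact_mod_cast hlt
    linarith
  obtain ⟨m, L, hL, hrep⟩ := exists_representation hl hl1 hW hT hfin N₀ hC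
  refine ⟨m, L, hL.mem, ?_, fun n => ?_⟩
  · obtain ⟨N', h5, -, h6⟩ := seq_law (a := fun n => S.a (pw X n))
      (t := fun n => finrank W.K (T.M (pw X n))) (ℓ := fun _ => len L) hapos
      (fun _ ε hε => hlow m L hL ε hε)
      (fun ε hε => by
        obtain ⟨n₀, h⟩ := upper_list S hl hl1 hB hX hε
        refine ⟨n₀, fun n hn => ?_⟩
        have h2 := h n hn (pw X m) L (fun g hg => ⟨(hL.mem g hg).1, (hL.mem g hg).2.1⟩)
        refine le_trans ?_ h2
        exact_mod_cast (hrep n).le)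
    have h7 := tendsto_nhds_unique hN h5
    rw [← ENat.toENNReal_coe, ENat.toENNReal_inj] at h7
    rcases h6 with h8 | ⟨-, h8⟩
    · rw [h8] at h7
      exact absurd h7 (ENat.natCast_ne_top N₀)
    · rw [h7, h8]
  · rw [hdim, hrep n]

end Pool.Agent.Q56.XL
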