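import Pool.Agent.Q56.XL.NatDefs

/-!
# The exact law: definitions
-/

set_option autoImplicit false

open CategoryTheory AlgebraicGeometry Filter Topology ENNReal

universe u v w

namespace Pool.Agent.Q56.XL

open Pool.Agent.H914 Pool.Agent.H914.VarClass Pool.Agent.H914.VarClass.Obj
  Pool.Agent.H914.WeilCohomology Pool.Agent.Y133.Half Pool.Agent.Q55.Rate Pool.Agent.Q56.ZO

section Gen

variable {K V V' : Type*} [Semiring K] [AddCommMonoid V] [Module K V] [AddCommMonoid V']
  [Module K V']

/-- `c` is a linear combination of elements of `s`. -/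
def InSpan (K : Type*) {V : Type*} [Semiring K] [AddCommMonoid V] [Module K V] (s : Set V)
    (c : V) : Prop := c ∈ Submodule.span K s

/-- The value of the linear map `f` at `a`. -/
def valueAt (f : V →ₗ[K] V') (a : V) : V' := f a

end Gen

variable {k : Type u} [Field k] {𝒱 : VarClass k} {ops : CycleOps 𝒱}

/-- The combination `l` of cycles on `P × P` gives a nonzero direct factor of the motive of `P`: its
operator on the cohomology of `P` is idempotent and not zero. -/
def IsFactor (W : WeilCohomology.{u, v} ops) {P : 𝒱.Obj}
    (l : List (W.K × (P.prod P).Cycles)) : Prop :=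
  PureList W l ∧ (∀ a, actH W l (actH W l a) = actH W l a) ∧ ∃ a, actH W l a ≠ 0

/-- The rank of the direct factor given by `l`: the dimension of its cohomology. -/
noncomputable def factorRank (W : WeilCohomology.{u, v} ops) {P : 𝒱.Obj}
    (l : List (W.K × (P.prod P).Cycles)) : ℕ :=
  dimOf W (Set.range (actH W l))

/-- The action of the class `c` on `P × Z` as a correspondence. -/
noncomputable def actClass (W : WeilCohomology.{u, v} ops) {P Z : 𝒱.Obj} (c : W.H (P.prod Z))
    (a : W.H P) : W.H Z :=
  valueAt (W.corr c) a

/-- The morphisms from the direct factor given by `l` to the motive of `Z`: the linear combinations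
`c` of classes of algebraic cycles on `P × Z` with `c ∘ l = c`. -/
def homSet (W : WeilCohomology.{u, v} ops) {P : 𝒱.Obj} (l : List (W.K × (P.prod P).Cycles))
    (Z : 𝒱.Obj) : Set (W.H (P.prod Z)) :=
  {c | InSpan W.K (algSet W (P.prod Z)) c ∧ ∀ a, actClass W c (actH W l a) = actClass W c a}

/-- The dimension of the space of the morphisms from the direct factor given by `l` to the motive of
`Z` modulo numerical equivalence (with coefficients in the coefficient field). -/
noncomputable def homRank (W : WeilCohomology.{u, v} ops) {P : 𝒱.Obj}
    (l : List (W.K × (P.prod P).Cycles)) (Z : 𝒱.Obj) : ℕ :=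
  dimOf W (homSet W l Z) - dimOf W (homSet W l Z ∩ numTrivial W (P.prod Z))

/-- The exact law for numbers `t(Y)` (natural numbers or `∞`) attached to the varieties `Y`, on the
powers of `X` (`pw X n` is the product of `n + 1` copies of `X`), with the limit `N` (a natural
number or `∞`): the quotients of `t(X^n)` and the rank `numDim W (X^n)` of the group of cycles on
`X^n` modulo numerical equivalence converge to `N`, they are at most `N` for even `n`, and if `N` is finite then
there are finitely many direct factors `M` of a power of `X` such that `N` is the sum of their ranks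
and, for all `n`, `t(X^n)` is the sum of the dimensions of the spaces of the morphisms modulo
numerical equivalence from `M` to the motive of `X^n`. -/
structure ExactLaw (W : WeilCohomology.{u, v} ops) (X : 𝒱.Obj) (t : 𝒱.Obj → ℕ∞) (N : ℕ∞) :
    Prop where
  limit : Tendsto (fun n => ((t (pw X n) : ℕ∞) : ℝ≥0∞) / numDim W (pw X n)) atTop
    (𝓝 (N : ℝ≥0∞))
  even : ∀ n, t (pw X (2 * n + 1)) ≤ N * numDim W (pw X (2 * n + 1))
  represented : N ≠ ⊤ → ∃ (m : ℕ) (M : List (List (W.K × ((pw X m).prod (pw X m)).Cycles))),
    (∀ l ∈ M, IsFactor W l) ∧ (((M.map fun l => factorRank W l).sum : ℕ) : ℕ∞) = N ∧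
    ∀ n, t (pw X n) = (((M.map fun l => homRank W l (pw X n)).sum : ℕ) : ℕ∞)

end Pool.Agent.Q56.XL
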