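import Pool.Agent.Q56.XL.Full
import Pool.Agent.Q56.XL.LawDefs

/-!
# The morphisms from a direct factor
-/

set_option autoImplicit false

open CategoryTheory AlgebraicGeometry Filter Topology ENNReal

universe u v w

namespace Pool.Agent.Q56.XL

open Module
open Pool.Agent.H914 Pool.Agent.H914.VarClass Pool.Agent.H914.VarClass.Obj
  Pool.Agent.H914.WeilCohomology Pool.Agent.Y133.Half Pool.Agent.Q55.Rate
  Pool.Agent.H281R3.HT Pool.Agent.Q56.ZO

variable {k : Type u} [Field k] {𝒱 : VarClass k} {ops : CycleOps 𝒱}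
  {W : WeilCohomology.{u, v} ops} {X Y Z P Q : 𝒱.Obj}

/-- The operators from the cohomology of `P` to the cohomology of `Z` which are given by numerically
trivial linear combinations of classes of algebraic cycles on `P × Z`. -/
noncomputable def numOps (W : WeilCohomology.{u, v} ops) (P Z : 𝒱.Obj) :
    Submodule W.K (W.H P →ₗ[W.K] W.H Z) :=
  Submodule.span W.K {u | ∃ c ∈ numTrivial W (P.prod Z), W.corr c = u}

/-- The dimension of the space of the morphisms from the direct factor given by `g` to the motive of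
`Z` modulo numerical equivalence. -/
noncomputable def homRk (W : WeilCohomology.{u, v} ops) (P : 𝒱.Obj)
    (g : Module.End W.K (W.H P)) (Z : 𝒱.Obj) : ℕ :=
  Set.finrank W.K {q : (W.H P →ₗ[W.K] W.H Z) ⧸ numOps W P Z |
    ∃ c ∈ Submodule.span W.K (algSet W (P.prod Z)), (numOps W P Z).mkQ (W.corr c ∘ₗ g) = q}

lemma numOps_eq (W : WeilCohomology.{u, v} ops) (P Z : 𝒱.Obj) :
    numOps W P Z = (algSys W).NOp P Z := by
  have h : {u : W.H P →ₗ[W.K] W.H Z | ∃ c ∈ numTrivial W (P.prod Z), W.corr c = u} =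
      ((algSys W).NOp P Z : Set (W.H P →ₗ[W.K] W.H Z)) := by
    ext u
    rw [Set.mem_ofPred_eq, numTrivial_eq]
    exact Sys.mem_NOp.symm
  rw [numOps, h, Submodule.span_eq]

lemma mem_span_algSet {c : W.H Z} :
    c ∈ Submodule.span W.K (algSet W Z) ↔ c ∈ (algSys W).C Z := by
  rw [algSet_span]
  rfl

/-- An operator which is orthogonal to all operators is numerically trivial. -/
lemma mem_NOp_of_trace' (S : Sys W) {u : W.H P →ₗ[W.K] W.H Z} (hu : u ∈ S.Op P Z)
    (h : ∀ w ∈ S.Op Z P, LinearMap.trace W.K (W.H Z) (par (W.isInternal Z) ∘ₗ u ∘ₗ w) = 0) :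
    u ∈ S.NOp P Z := by
  obtain ⟨c, hc, rfl⟩ := Sys.mem_Op.1 hu
  refine Sys.NOp.corr ⟨hc, fun d hd => ?_⟩
  have h1 := h _ (Sys.Op.corr (S := S) (S.map (swap Z P) hd))
  rw [trace_corr_corr, swap_swap] at h1
  exact h1

lemma par_trace {u : W.H P →ₗ[W.K] W.H Z} (hu : Ev W u) (w : W.H Z →ₗ[W.K] W.H P) :
    LinearMap.trace W.K (W.H P) (par (W.isInternal P) ∘ₗ w ∘ₗ u) =
      LinearMap.trace W.K (W.H Z) (par (W.isInternal Z) ∘ₗ u ∘ₗ w) := by
  have e1 : par (W.isInternal P) ∘ₗ w ∘ₗ u = (par (W.isInternal P) ∘ₗ w) ∘ₗ u := by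
    simp only [LinearMap.comp_assoc]
  rw [e1, LinearMap.trace_comp_comm']
  have e2 : u ∘ₗ par (W.isInternal P) ∘ₗ w = (par (W.isInternal Z) ∘ₗ u) ∘ₗ w := by
    rw [hu.par_comm]
    simp only [LinearMap.comp_assoc]
  rw [e2]
  simp only [LinearMap.comp_assoc]

/-- **The dimension of the space of morphisms as the rank of a form.** -/
theorem homRk_eq {g : Module.End W.K (W.H P)} (hg : g ∈ (algSys W).Op P P) (Z : 𝒱.Obj) :
    homRk W P g Z = (algSys W).r P g Z := by
  set S := algSys W with hS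
  have hr := S.rk_BO_r (P := P) (Z := Z) (g := g) (Sys.Op.ev hg)
  rw [← rk_flip, rk] at hr
  let α : S.Op P Z →ₗ[W.K] ((W.H P →ₗ[W.K] W.H Z) ⧸ numOps W P Z) :=
    { toFun := fun t => (numOps W P Z).mkQ ((t : W.H P →ₗ[W.K] W.H Z) ∘ₗ g)
      map_add' := fun s t => by
        rw [Submodule.coe_add, LinearMap.add_comp, map_add]
      map_smul' := fun c t => by
        rw [Submodule.coe_smul, LinearMap.smul_comp, map_smul, RingHom.id_apply] }
  let β := (S.BO P Z g LinearMap.id).flip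
  have hset : {q : (W.H P →ₗ[W.K] W.H Z) ⧸ numOps W P Z |
      ∃ c ∈ Submodule.span W.K (algSet W (P.prod Z)), (numOps W P Z).mkQ (W.corr c ∘ₗ g) = q} =
      (LinearMap.range α : Set _) := by
    ext q
    constructor
    · rintro ⟨c, hc, rfl⟩
      exact ⟨⟨W.corr c, Sys.Op.corr (mem_span_algSet.1 hc)⟩, rfl⟩
    · rintro ⟨⟨t, ht⟩, rfl⟩
      obtain ⟨c, hc, rfl⟩ := Sys.mem_Op.1 ht
      exact ⟨c, mem_span_algSet.2 hc, rfl⟩
  have h1 : homRk W P g Z = finrank W.K (LinearMap.range α) := by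
    rw [homRk, hset, Set.finrank, Submodule.span_eq]
  have hker : LinearMap.ker α = LinearMap.ker β := by
    ext t
    rw [LinearMap.mem_ker, LinearMap.mem_ker]
    change (numOps W P Z).mkQ ((t : W.H P →ₗ[W.K] W.H Z) ∘ₗ g) = 0 ↔ _
    rw [Submodule.mkQ_apply, Submodule.Quotient.mk_eq_zero, numOps_eq]
    have htg : (t : W.H P →ₗ[W.K] W.H Z) ∘ₗ g ∈ S.Op P Z := Sys.Op.comp t.2 hg
    have key : ∀ s : S.Op Z P, β t s = LinearMap.trace W.K (W.H Z) (par (W.isInternal Z) ∘ₗ
        ((t : W.H P →ₗ[W.K] W.H Z) ∘ₗ g) ∘ₗ (s : W.H Z →ₗ[W.K] W.H P)) := by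
      intro s
      change (S.BO P Z g LinearMap.id).flip t s = _
      rw [LinearMap.flip_apply, Sys.BO_apply, LinearMap.id_comp,
        ← par_trace (Sys.Op.ev htg) (s : W.H Z →ₗ[W.K] W.H P)]
      have hc := (Sys.Op.ev hg).par_comm
      have e1 : par (W.isInternal P) ∘ₗ g ∘ₗ (s : W.H Z →ₗ[W.K] W.H P) ∘ₗ
          (t : W.H P →ₗ[W.K] W.H Z) = g ∘ₗ (par (W.isInternal P) ∘ₗ
            (s : W.H Z →ₗ[W.K] W.H P) ∘ₗ (t : W.H P →ₗ[W.K] W.H Z)) := by
        rw [← LinearMap.comp_assoc, hc, LinearMap.comp_assoc]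
      rw [e1, LinearMap.trace_comp_comm']
      simp only [LinearMap.comp_assoc]
    constructor
    · intro h
      apply LinearMap.ext
      intro s
      rw [key, LinearMap.zero_apply]
      exact Sys.NOp.trace h s.2
    · intro h
      refine mem_NOp_of_trace' S htg fun w hw => ?_
      have h2 := key ⟨w, hw⟩
      rw [h, LinearMap.zero_apply] at h2
      exact h2.symm
  have h2 := LinearMap.finrank_range_add_finrank_ker (V := S.Op P Z)
    (V₂ := (W.H P →ₗ[W.K] W.H Z) ⧸ numOps W P Z) α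
  have h3 := LinearMap.finrank_range_add_finrank_ker (V := S.Op P Z)
    (V₂ := S.Op Z P →ₗ[W.K] W.K) β
  rw [hker] at h2
  have h4 : finrank W.K (LinearMap.range β) = S.r P g Z := hr
  rw [h1]
  omega

/-- The correspondence determines the class. -/
lemma corr_inj {x y : W.H (P.prod Z)} (h : W.corr x = W.corr y) : x = y := by
  apply W.tr_ext
  intro d
  have h1 := trace_corr_corr (W := W) x (W.map (swap Z P) d)
  have h2 := trace_corr_corr (W := W) y (W.map (swap Z P) d)
  rw [swap_swap] at h1 h2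
  rw [← h1, ← h2, h]

lemma mem_Num_iff {x : W.H (P.prod Z)} :
    x ∈ (algSys W).Num (P.prod Z) ↔ W.corr x ∈ (algSys W).NOp P Z := by
  constructor
  · intro h
    exact Sys.NOp.corr h
  · intro h
    obtain ⟨y, hy, hxy⟩ := Sys.mem_NOp.1 h
    rw [← corr_inj hxy]
    exact hy

/-- The operators of lists. -/
lemma exists_op {l : List (W.K × (P.prod Z).Cycles)} (hl : PureList W l) :
    ∃ g ∈ (algSys W).Op P Z, ∀ a, g a = actH W l a := by
  induction l with
  | nil => exact ⟨0, Submodule.zero_mem _, fun a => rfl⟩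
  | cons y l ih =>
    obtain ⟨g, hg, h1⟩ := ih fun z hz => hl z (List.mem_cons_of_mem _ hz)
    obtain ⟨p, hp⟩ := hl y (by simp)
    refine ⟨y.1 • W.corr (W.cl _ y.2) + g, Submodule.add_mem _ (Submodule.smul_mem _ _
      (Sys.Op.corr (mem_span_algSet.1 (Submodule.subset_span ⟨p, y.2, hp, rfl⟩)))) hg,
      fun a => ?_⟩
    rw [actH, List.map_cons, List.sum_cons]
    exact congrArg₂ (· + ·) rfl (h1 a)

lemma exists_list_of_mem {c : W.H (P.prod Z)} (hc : c ∈ (algSys W).C (P.prod Z)) :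
    ∃ l : List (W.K × (P.prod Z).Cycles), PureList W l ∧ ∀ a, W.corr c a = actH W l a := by
  rw [← mem_span_algSet] at hc
  induction hc using Submodule.span_induction with
  | mem x hx =>
    obtain ⟨p, Γ, hΓ, rfl⟩ := hx
    refine ⟨[(1, Γ)], ?_, fun a => ?_⟩
    · intro x hx
      rw [List.mem_singleton] at hx
      subst hx
      exact ⟨p, hΓ⟩
    · rw [actH, List.map_singleton, List.sum_singleton, one_smul]; rfl
  | zero => exact ⟨[], fun x hx => absurd hx List.not_mem_nil, fun a => by rw [corr_zero]; rfl⟩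
  | add x y _ _ ihx ihy =>
    obtain ⟨l, hl, h1⟩ := ihx
    obtain ⟨l', hl', h1'⟩ := ihy
    refine ⟨l ++ l', fun x hx => ?_, fun a => ?_⟩
    · rcases List.mem_append.1 hx with h | h
      · exact hl x h
      · exact hl' x h
    · rw [actH_append, ← h1, ← h1', corr_add]; rfl
  | smul c x _ ih =>
    obtain ⟨l, hl, h1⟩ := ih
    refine ⟨l.map fun x => (c * x.1, x.2), fun x hx => ?_, fun a => ?_⟩
    · obtain ⟨y, hy, rfl⟩ := List.mem_map.1 hx
      exact hl y hy
    · rw [actH_scale, ← h1, W.corr_smul]; rfl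

/-- **The dimension of the space of morphisms.** -/
theorem homRank_eq {l : List (W.K × (P.prod P).Cycles)} {g : Module.End W.K (W.H P)}
    (hg : g ∈ (algSys W).Op P P) (hgg : g ∘ₗ g = g) (hgl : ∀ a, g a = actH W l a) (Z : 𝒱.Obj) :
    homRank W l Z = (algSys W).r P g Z := by
  set S := algSys W with hS
  rw [← homRk_eq hg Z]
  set F := corrL W P Z with hF'
  have hF : Function.Injective F := fun x y h => corr_inj h
  let R : S.Op P Z →ₗ[W.K] (W.H P →ₗ[W.K] W.H Z) :=
    { toFun := fun t => (t : W.H P →ₗ[W.K] W.H Z) ∘ₗ g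
      map_add' := fun s t => by rw [Submodule.coe_add, LinearMap.add_comp]
      map_smul' := fun c t => by
        rw [Submodule.coe_smul, LinearMap.smul_comp, RingHom.id_apply] }
  set U := LinearMap.range R with hU
  set V := S.NOp P Z with hV
  have hUF : U ≤ LinearMap.range F := by
    rintro _ ⟨⟨t, ht⟩, rfl⟩
    obtain ⟨c, -, hc⟩ := Sys.mem_Op.1 (Sys.Op.comp ht hg)
    exact ⟨c, hc⟩
  have e1 : homSet W l Z = (U.comap F : Set (W.H (P.prod Z))) := by
    ext c
    constructor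
    · rintro ⟨h1, h2⟩
      refine ⟨⟨W.corr c, Sys.Op.corr (mem_span_algSet.1 h1)⟩, LinearMap.ext fun a => ?_⟩
      change W.corr c (g a) = W.corr c a
      rw [hgl]
      exact h2 a
    · rintro ⟨⟨t, ht⟩, h1⟩
      have h1' : t ∘ₗ g = W.corr c := h1
      obtain ⟨c', hc', h2⟩ := Sys.mem_Op.1 (Sys.Op.comp ht hg)
      have h3 : c' = c := corr_inj (h2.trans h1')
      refine ⟨mem_span_algSet.2 (h3 ▸ hc'), fun a => ?_⟩
      change W.corr c (actH W l a) = W.corr c a
      rw [← hgl, ← h1']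
      change t (g (g a)) = t (g a)
      exact congrArg t (congrArg (fun f : Module.End W.K (W.H P) => f a) hgg)
  have e2 : numTrivial W (P.prod Z) = (V.comap F : Set (W.H (P.prod Z))) := by
    ext c
    rw [numTrivial_eq]
    exact mem_Num_iff
  have e3 : homSet W l Z ∩ numTrivial W (P.prod Z) =
      ((U ⊓ V).comap F : Set (W.H (P.prod Z))) := by
    rw [e1, e2]
    rfl
  have h1 : dimOf W (homSet W l Z) = finrank W.K U := by
    rw [dimOf, e1, Set.finrank, Submodule.span_eq,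
      (Submodule.equivMapOfInjective F hF (U.comap F)).finrank_eq, Submodule.map_comap_eq_self hUF]
  have h2 : dimOf W (homSet W l Z ∩ numTrivial W (P.prod Z)) =
      finrank W.K (U ⊓ V : Submodule _ _) := by
    rw [dimOf, e3, Set.finrank, Submodule.span_eq,
      (Submodule.equivMapOfInjective F hF ((U ⊓ V).comap F)).finrank_eq,
      Submodule.map_comap_eq_self (inf_le_left.trans hUF)]
  have hG : {q : (W.H P →ₗ[W.K] W.H Z) ⧸ numOps W P Z |
      ∃ c ∈ Submodule.span W.K (algSet W (P.prod Z)),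
        (numOps W P Z).mkQ (W.corr c ∘ₗ g) = q} =
      (LinearMap.range ((numOps W P Z).mkQ.domRestrict U) : Set _) := by
    ext q
    constructor
    · rintro ⟨c, hc, rfl⟩
      exact ⟨⟨W.corr c ∘ₗ g, ⟨⟨W.corr c, Sys.Op.corr (mem_span_algSet.1 hc)⟩, rfl⟩⟩, rfl⟩
    · rintro ⟨⟨_, ⟨⟨t, ht⟩, rfl⟩⟩, rfl⟩
      obtain ⟨c, hc, rfl⟩ := Sys.mem_Op.1 ht
      exact ⟨c, mem_span_algSet.2 hc, rfl⟩
  have h3 : homRk W P g Z =
      finrank W.K (LinearMap.range ((numOps W P Z).mkQ.domRestrict U)) := by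
    rw [homRk, hG, Set.finrank, Submodule.span_eq]
  have h4 := LinearMap.finrank_range_add_finrank_ker (V := U)
    (V₂ := (W.H P →ₗ[W.K] W.H Z) ⧸ numOps W P Z) ((numOps W P Z).mkQ.domRestrict U)
  have h5 : finrank W.K (LinearMap.ker ((numOps W P Z).mkQ.domRestrict U)) =
      finrank W.K (U ⊓ V : Submodule _ _) := by
    have e : LinearMap.ker ((numOps W P Z).mkQ.domRestrict U) = (U ⊓ V).submoduleOf U := by
      ext x
      rw [LinearMap.mem_ker, LinearMap.domRestrict_apply, Submodule.mkQ_apply,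
        Submodule.Quotient.mk_eq_zero, numOps_eq]
      constructor
      · intro h
        exact ⟨x.2, h⟩
      · intro h
        exact h.2
    rw [e]
    exact (Submodule.submoduleOfEquivOfLe inf_le_left).finrank_eq
  rw [homRank, h1, h2, h3]
  omega

lemma mem_Num_iff' {x : W.H (P.prod Z)} :
    x ∈ (algSys W).Num (P.prod Z) ↔ W.corr x ∈ (algSys W).NOp P Z := mem_Num_iff

end Pool.Agent.Q56.XL
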