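import Mathlib

/-!
# A law for sequences
-/

set_option autoImplicit false

open Filter Topology ENNReal

namespace Pool.Agent.Q56.XL

lemma ratio_ofReal {a b : ℕ} (hb : 0 < b) :
    ENNReal.ofReal ((a : ℝ) / b) = (a : ℝ≥0∞) / b := by
  rw [ENNReal.ofReal_div_of_pos (by exact_mod_cast hb), ENNReal.ofReal_natCast,
    ENNReal.ofReal_natCast]

/-- Natural numbers `ℓ m` with `ℓ m - ε ≤ t n / a n` for large `n` and `t m / a m ≤ (1 + ε) ℓ m` for
large `m` force the convergence of `t n / a n` to a natural number or to infinity. -/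
theorem seq_law {a t ℓ : ℕ → ℕ} (ha : ∀ n, 0 < a n)
    (hlow : ∀ m, ∀ ε : ℝ, 0 < ε → ∃ n₀, ∀ n ≥ n₀, ((ℓ m : ℝ) - ε) * a n ≤ t n)
    (hup : ∀ ε : ℝ, 0 < ε → ∃ n₀, ∀ m ≥ n₀, (t m : ℝ) ≤ (1 + ε) * ℓ m * a m) :
    ∃ N : ℕ∞, Tendsto (fun n => (t n : ℝ≥0∞) / a n) atTop (𝓝 (N : ℝ≥0∞)) ∧
      (∀ m, (ℓ m : ℕ∞) ≤ N) ∧ (N = ⊤ ∨ ∃ m, N = ℓ m) := by
  by_cases hb : BddAbove (Set.range ℓ)
  · obtain ⟨m₀, hm₀⟩ := Nat.sSup_mem (Set.range_nonempty ℓ) hb
    have hmax : ∀ m, ℓ m ≤ ℓ m₀ := fun m => by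
      rw [hm₀]
      exact le_csSup hb ⟨m, rfl⟩
    set N := ℓ m₀ with hN
    refine ⟨N, ?_, fun m => by exact_mod_cast hmax m, Or.inr ⟨m₀, rfl⟩⟩
    have h1 : Tendsto (fun n => (t n : ℝ) / a n) atTop (𝓝 (N : ℝ)) := by
      rw [Metric.tendsto_atTop]
      intro ε hε
      obtain ⟨n₁, h₁⟩ := hlow m₀ (ε / 2) (by positivity)
      obtain ⟨n₂, h₂⟩ := hup (ε / (2 * (N + 1))) (by positivity)
      refine ⟨max n₁ n₂, fun n hn => ?_⟩
      have h3 := h₁ n ((le_max_left _ _).trans hn)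
      have h4 := h₂ n ((le_max_right _ _).trans hn)
      have h5 : (0 : ℝ) < a n := by exact_mod_cast ha n
      have h6 : ((ℓ n : ℕ) : ℝ) ≤ N := by exact_mod_cast hmax n
      have h7 : (0 : ℝ) ≤ N := Nat.cast_nonneg _
      have h8 : (t n : ℝ) ≤ (1 + ε / (2 * (N + 1))) * N * a n := by
        refine h4.trans ?_
        gcongr
      have h9 : (t n : ℝ) / a n ≤ (1 + ε / (2 * (N + 1))) * N := (div_le_iff₀ h5).2 h8
      have h10 : (N : ℝ) - ε / 2 ≤ t n / a n := (le_div_iff₀ h5).2 h3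
      have h11 : (1 + ε / (2 * (N + 1))) * (N : ℝ) ≤ N + ε / 2 := by
        have h12 : ε / (2 * ((N : ℝ) + 1)) * N ≤ ε / 2 := by
          rw [div_mul_eq_mul_div, div_le_div_iff₀ (by positivity) (by norm_num)]
          nlinarith
        nlinarith
      rw [Real.dist_eq, abs_lt]
      constructor <;> linarith
    have h2 := ENNReal.tendsto_ofReal h1
    rw [ENNReal.ofReal_natCast] at h2
    have h3 : ((N : ℕ∞) : ℝ≥0∞) = ((N : ℕ) : ℝ≥0∞) := ENat.toENNReal_coe N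
    rw [h3]
    refine h2.congr fun n => ?_
    exact ratio_ofReal (ha n)
  · refine ⟨⊤, ?_, fun m => le_top, Or.inl rfl⟩
    have h3 : ((⊤ : ℕ∞) : ℝ≥0∞) = ⊤ := ENat.toENNReal_top
    rw [h3, ENNReal.tendsto_nhds_top_iff_nat]
    intro C
    obtain ⟨m, hm⟩ : ∃ m, C + 2 ≤ ℓ m := by
      by_contra h
      push Not at h
      exact hb ⟨C + 2, by rintro _ ⟨m, rfl⟩; exact (h m).le⟩
    obtain ⟨n₀, hn₀⟩ := hlow m 1 one_pos
    filter_upwards [eventually_ge_atTop n₀] with n hn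
    have h1 := hn₀ n hn
    have h2 : ((C + 1 : ℕ) : ℝ) * a n ≤ t n := by
      refine le_trans ?_ h1
      have h5 : (0 : ℝ) ≤ a n := Nat.cast_nonneg _
      have h4 : ((C + 1 : ℕ) : ℝ) ≤ (ℓ m : ℝ) - 1 := by
        have : ((C + 2 : ℕ) : ℝ) ≤ ℓ m := by exact_mod_cast hm
        push_cast at this ⊢
        linarith
      exact mul_le_mul_of_nonneg_right h4 h5
    have h4 : (C + 1) * a n ≤ t n := by exact_mod_cast h2
    have h5 : ((C + 1 : ℕ) : ℝ≥0∞) ≤ (t n : ℝ≥0∞) / a n := by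
      rw [ENNReal.le_div_iff_mul_le (Or.inl (by exact_mod_cast (ha n).ne'))
        (Or.inl (ENNReal.natCast_ne_top _))]
      exact_mod_cast h4
    exact lt_of_lt_of_le (by exact_mod_cast Nat.lt_succ_self C) h5

end Pool.Agent.Q56.XL
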