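import Pool.Agent.Q56.XL.Asym
import Pool.Agent.Q56.XL.Seq

/-!
# The exact law for theories on which algebraic correspondences act
-/

set_option autoImplicit false

open CategoryTheory AlgebraicGeometry Filter Topology ENNReal

universe u v w

namespace Pool.Agent.Q56.XL

open Module
open Pool.Agent.H914 Pool.Agent.H914.VarClass Pool.Agent.H914.VarClass.Obj
  Pool.Agent.H914.WeilCohomology Pool.Agent.Y133.Half Pool.Agent.Q55.Rate
  Pool.Agent.H281R3.HT Pool.Agent.Q56.ZO

/-- The dimension of a vector space as a natural number or `∞`. -/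
noncomputable def dimE (K : Type*) (V : Type*) [Field K] [AddCommGroup V] [Module K V] : ℕ∞ :=
  Cardinal.toENat (Module.rank K V)

section Dim

variable {K V : Type*} [Field K] [AddCommGroup V] [Module K V]

lemma dimE_eq [FiniteDimensional K V] : dimE K V = (finrank K V : ℕ∞) := by
  rw [dimE, ← Module.finrank_eq_rank, map_natCast]

lemma dimE_top (h : ¬ FiniteDimensional K V) : dimE K V = ⊤ := by
  rw [dimE, Cardinal.toENat_eq_top]
  by_contra h1
  rw [not_le] at h1
  exact h (Module.rank_lt_aleph0_iff.1 h1)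

lemma dimE_zero [Subsingleton V] : dimE K V = 0 := by
  rw [dimE, rank_subsingleton', map_zero]

end Dim

variable {k : Type u} [Field k] {𝒱 : VarClass k} {ops : CycleOps 𝒱}
  {W : WeilCohomology.{u, v} ops} {T : CycTheory.{u, v, w} W} {X Y Z P Q : 𝒱.Obj}

/-- If `T(X^n)` is infinite-dimensional then so is `T(X^(n+1))`. -/
lemma infinite_succ {l : W.H X} (hl : l ∈ (algSys W).C X) (hl1 : W.tr X l = 1) {m : ℕ}
    (hT : PairNilpotent T X) (h : ¬ FiniteDimensional W.K (T.M (pw X m))) :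
    ¬ FiniteDimensional W.K (T.M (pw X (m + 1))) := by
  intro h'
  obtain ⟨u, hu, v, hv, huv⟩ := exists_section (algSys W) hl hl1 m
  obtain ⟨f, hf⟩ := corrPairs.lift T hu
  obtain ⟨g, hg⟩ := corrPairs.lift T hv
  have h1 := corrPairs.comp hg hf
  have h2 := Submodule.sub_mem _ (corrPairs.one T (pw X m)) h1
  have h4 := hT m _ h2 (by
    change LinearMap.id - v ∘ₗ u = 0
    rw [huv, sub_self])
  have h5 : IsUnit (g ∘ₗ f : Module.End W.K (T.M (pw X m))) := by
    have h6 := h4.isUnit_one_sub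
    have h7 : (1 : Module.End W.K (T.M (pw X m))) -
        ((LinearMap.id : T.M (pw X m) →ₗ[W.K] T.M (pw X m)) - g ∘ₗ f) = g ∘ₗ f := by
      change (LinearMap.id : T.M (pw X m) →ₗ[W.K] T.M (pw X m)) -
        ((LinearMap.id : T.M (pw X m) →ₗ[W.K] T.M (pw X m)) - g ∘ₗ f) = g ∘ₗ f
      abel
    have h8 : IsUnit ((1 : Module.End W.K (T.M (pw X m))) -
        ((LinearMap.id : T.M (pw X m) →ₗ[W.K] T.M (pw X m)) - g ∘ₗ f)) := h6
    rwa [h7] at h8
  have h6 : Function.Injective f := by
    intro x y hxy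
    have h7 := (Module.End.isUnit_iff _).1 h5
    exact h7.1 (congrArg g hxy)
  exact h (FiniteDimensional.of_injective f h6)

/-- If all classes of degree zero vanish numerically, the theory vanishes. -/
lemma subsingleton_of_tr (hW : NumTrivialNilpotent W X) (hT : PairNilpotent T X)
    (hZ : ∀ l ∈ (algSys W).C X, W.tr X l = 0) (n : ℕ) : Subsingleton (T.M (pw X n)) := by
  set S := algSys W with hS
  apply subsingleton_of_one (hT n)
  have h1 : ∀ c ∈ S.C (pw X n), W.tr (pw X n) c = 0 := by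
    intro c hc
    have h2 := W.tr_push (prj X n 0) c 1
    rw [mul_one, map_one, mul_one] at h2
    rw [← h2]
    exact hZ _ (S.push _ hc)
  obtain ⟨N, hN⟩ := hW n _ (isNumTrivialOp_iff.2 (one_mem_NOp S h1))
  have h3 : (1 : Module.End W.K (W.H (pw X n))) ^ N = 0 := hN
  rw [one_pow] at h3
  exact h3

/-- **The exact law.** -/
theorem exact_law (hW : NumTrivialNilpotent W X) (hT : PairNilpotent T X) :
    ∃ N : ℕ∞,
      Tendsto (fun n => ((dimE W.K (T.M (pw X n)) : ℕ∞) : ℝ≥0∞) / cycRank ops (pw X n)) atTop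
        (𝓝 (N : ℝ≥0∞)) ∧
      (∀ n, dimE W.K (T.M (pw X (2 * n + 1))) ≤ N * cycRank ops (pw X (2 * n + 1))) ∧
      (N = 0 ↔ ∀ n, Subsingleton (T.M (pw X n))) ∧
      ∀ d : ℕ, VanishesBelow T X d → N = 0 ∨ (d : ℕ∞) ≤ N := by
  set S := algSys W with hS
  by_cases hZ : ∀ l ∈ S.C X, W.tr X l = 0
  · have h0 : ∀ n, Subsingleton (T.M (pw X n)) := subsingleton_of_tr hW hT hZ
    have h1 : ∀ n, dimE W.K (T.M (pw X n)) = 0 := fun n => by
      have := h0 n
      exact dimE_zero
    refine ⟨0, ?_, fun n => by rw [h1]; exact bot_le, ⟨fun _ => h0, fun _ => rfl⟩,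
      fun d _ => Or.inl rfl⟩
    simp only [h1, ENat.toENNReal_zero, ENNReal.zero_div]
    exact tendsto_const_nhds
  push Not at hZ
  obtain ⟨l', hl', hl'0⟩ := hZ
  obtain ⟨l, hl, hl1⟩ : ∃ l ∈ S.C X, W.tr X l = 1 :=
    ⟨(W.tr X l')⁻¹ • l', Submodule.smul_mem _ _ hl', by
      rw [map_smul, smul_eq_mul, inv_mul_cancel₀ hl'0]⟩
  have h1 : (1 : W.H X) ≠ 0 := one_ne_zero_of (ne_zero_of_tr hl1)
  have hX : 0 < finrank W.K (W.H X) := by
    have : Nontrivial (W.H X) := ⟨⟨1, 0, h1⟩⟩
    exact Module.finrank_pos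
  have hpos : ∀ n, 0 < S.al X n := by
    intro n
    obtain ⟨m, hm, hm1⟩ := S.exists_lam hl hl1 n
    refine S.a_pos (Sys.xp_mem_C S hm hm) ?_
    rw [tr_xp, hm1, mul_one]
  have hapos : ∀ n, 0 < S.a (pw X n) := by
    intro n
    obtain ⟨m, hm, hm1⟩ := S.exists_lam hl hl1 n
    exact S.a_pos hm hm1
  have hB := ratios_of_nilpotent hW hpos
  have hcyc : ∀ n, cycRank ops (pw X n) = S.a (pw X n) := fun n => (numDim_eq_cycRank W _).symm
  have hcpos : ∀ n, 0 < cycRank ops (pw X n) := fun n => by rw [hcyc]; exact hapos n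
  by_cases hfin : ∀ n, FiniteDimensional W.K (T.M (pw X n))
  swap
  · push Not at hfin
    obtain ⟨m, hm⟩ := hfin
    have h2 : ∀ n ≥ m, ¬ FiniteDimensional W.K (T.M (pw X n)) := by
      intro n hn
      induction n, hn using Nat.le_induction with
      | base => exact hm
      | succ n _ ih => exact infinite_succ hl hl1 hT ih
    refine ⟨⊤, ?_, fun n => ?_, ⟨fun h => absurd h (by simp), fun h => ?_⟩, fun d _ =>
      Or.inr le_top⟩
    · refine tendsto_const_nhds.congr' ?_
      filter_upwards [eventually_ge_atTop m] with n hn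
      rw [dimE_top (h2 n hn), ENat.toENNReal_top, ENNReal.top_div_of_ne_top
        (ENNReal.natCast_ne_top _)]
    · rw [ENat.top_mul (by exact_mod_cast (hcpos _).ne')]
      exact le_top
    · exfalso
      have := h m
      exact hm inferInstance
  have key : ∀ m, ∃ L : List (Module.End W.K (W.H (pw X m))),
      (∀ g ∈ L, g ∈ S.Op (pw X m) (pw X m) ∧ g ∘ₗ g = g ∧ g ≠ 0 ∧
        ∃ f : Module.End W.K (T.M (pw X m)), (g, f) ∈ corrPairs T (pw X m) (pw X m) ∧
          f * f = f ∧ f ≠ 0) ∧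
      (∀ Z : 𝒱.Obj, (((L.map fun g => S.r (pw X m) g Z).sum : ℕ) : Cardinal.{w}) ≤
        Module.rank W.K (T.M Z)) ∧
      finrank W.K (T.M (pw X m)) ≤ (L.map fun g => S.r (pw X m) g (pw X m)).sum := by
    intro m
    have := hfin m
    exact exists_chain (fun u hu => hW m u (isNumTrivialOp_iff.2 hu)) (hT m)
  choose L hL1 hL2 hL3 using key
  set ℓ : ℕ → ℕ := fun m => ((L m).map fun g => finrank W.K (LinearMap.range g)).sum with hℓ
  have hLa : ∀ m, ∀ g ∈ L m, g ∈ S.Op (pw X m) (pw X m) ∧ g ∘ₗ g = g := fun m g hg =>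
    ⟨(hL1 m g hg).1, (hL1 m g hg).2.1⟩
  have hle : ∀ m n, ((L m).map fun g => S.r (pw X m) g (pw X n)).sum ≤
      finrank W.K (T.M (pw X n)) := by
    intro m n
    have := hfin n
    have h2 := hL2 m (pw X n)
    rw [← Module.finrank_eq_rank] at h2
    exact_mod_cast h2
  obtain ⟨N, hN1, hN2, hN3⟩ := seq_law (a := fun n => S.a (pw X n))
    (t := fun n => finrank W.K (T.M (pw X n))) (ℓ := ℓ) hapos
    (fun m ε hε => by
      obtain ⟨n₀, h⟩ := lower_list S hl hl1 hB hX (L m) (hLa m) ε hε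
      refine ⟨n₀, fun n hn => (h n hn).trans ?_⟩
      exact_mod_cast hle m n)
    (fun ε hε => by
      obtain ⟨n₀, h⟩ := upper_list S hl hl1 hB hX hε
      refine ⟨n₀, fun m hm => ?_⟩
      have h2 := h m hm (pw X m) (L m) (hLa m)
      refine le_trans ?_ h2
      exact_mod_cast hL3 m)
  have hdim : ∀ n, dimE W.K (T.M (pw X n)) = (finrank W.K (T.M (pw X n)) : ℕ∞) := fun n => by
    have := hfin n
    exact dimE_eq
  -- each idempotent of the series has positive rank
  have hrk : ∀ m, ∀ g ∈ L m, 1 ≤ finrank W.K (LinearMap.range g) := fun m g hg =>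
    Sys.finrank_range_pos (hL1 m g hg).2.2.1
  have hℓge : ∀ m, ∀ g ∈ L m, finrank W.K (LinearMap.range g) ≤ ℓ m := fun m g hg =>
    List.single_le_sum (fun _ _ => Nat.zero_le _) _ (List.mem_map.2 ⟨g, hg, rfl⟩)
  have hLnil : ∀ m, ℓ m = 0 → L m = [] := by
    intro m hm
    by_contra h
    obtain ⟨g, hg⟩ := List.exists_mem_of_ne_nil _ h
    have h2 := hrk m g hg
    have h3 := hℓge m g hg
    omega
  refine ⟨N, ?_, fun n => ?_, ⟨fun h n => ?_, fun h => ?_⟩, fun d hd => ?_⟩
  · simp only [hdim, hcyc, ENat.toENNReal_coe]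
    exact hN1
  · rw [hdim, hcyc]
    have h2 := upper_list_even S (X := X) (L (2 * n + 1)) (hLa _) n
    have h3 := (hL3 (2 * n + 1)).trans h2
    have h4 : ((finrank W.K (T.M (pw X (2 * n + 1))) : ℕ) : ℕ∞) ≤
        (ℓ (2 * n + 1) : ℕ∞) * (S.a (pw X (2 * n + 1)) : ℕ∞) := by exact_mod_cast h3
    exact h4.trans (mul_le_mul' (hN2 _) le_rfl)
  · have h2 : ℓ n = 0 := by
      have h3 := hN2 n
      rw [h] at h3
      exact_mod_cast le_antisymm h3 bot_le
    have h3 := hL3 n
    rw [hLnil n h2, List.map_nil, List.sum_nil] at h3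
    have := hfin n
    exact Module.finrank_zero_iff.1 (Nat.le_zero.1 h3)
  · rcases hN3 with h2 | ⟨m, h2⟩
    · exfalso
      have h3 : (fun n => ((finrank W.K (T.M (pw X n)) : ℕ) : ℝ≥0∞) / (S.a (pw X n) : ℝ≥0∞)) =
          fun _ => 0 := by
        funext n
        have := h n
        rw [Module.finrank_zero_of_subsingleton, Nat.cast_zero, ENNReal.zero_div]
      rw [h3, h2, ENat.toENNReal_top] at hN1
      exact ENNReal.zero_ne_top (tendsto_nhds_unique tendsto_const_nhds hN1)
    · rw [h2]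
      have h4 : L m = [] := by
        by_contra h5
        obtain ⟨g, hg⟩ := List.exists_mem_of_ne_nil _ h5
        obtain ⟨-, -, -, f, -, -, hf⟩ := hL1 m g hg
        have := h m
        exact hf (LinearMap.ext fun x => Subsingleton.elim _ _)
      have h5 : ℓ m = 0 := by
        rw [hℓ]
        simp [h4]
      rw [h5, Nat.cast_zero]
  · rcases hN3 with h2 | ⟨m, h2⟩
    · right
      rw [h2]
      exact le_top
    · rcases Nat.eq_zero_or_pos (ℓ m) with h3 | h3
      · left
        rw [h2, h3, Nat.cast_zero]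
      · right
        have h4 : L m ≠ [] := by
          intro h5
          have h6 : ℓ m = 0 := by rw [hℓ]; simp [h5]
          omega
        obtain ⟨g, hg⟩ := List.exists_mem_of_ne_nil _ h4
        obtain ⟨-, hgg, -, f, hgf, hff, hf⟩ := hL1 m g hg
        have h5 : d ≤ finrank W.K (LinearMap.range g) := by
          by_contra h6
          exact hf (hd m (g, f) hgf (Prod.ext hgg hff) (not_le.1 h6))
        rw [h2]
        exact_mod_cast h5.trans (hℓge m g hg)

end Pool.Agent.Q56.XL
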