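import Pool.Agent.Q56.XL.Law

/-!
# Steps between two stable subspaces, upper bounds on direct factors
-/

set_option autoImplicit false
set_option linter.unusedSectionVars false

open CategoryTheory AlgebraicGeometry Polynomial

universe u v w

namespace Pool.Agent.Q56.XL

open Module
open Pool.Agent.H914 Pool.Agent.H914.VarClass Pool.Agent.H914.VarClass.Obj
  Pool.Agent.H914.WeilCohomology Pool.Agent.Y133.Half Pool.Agent.Q55.Rate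
  Pool.Agent.H281R3.HT Pool.Agent.Q56.ZO

section Pair

variable {K V M : Type*} [Field K] [AddCommGroup V] [Module K V] [FiniteDimensional K V]
  [AddCommGroup M] [Module K M]

variable {A : Subalgebra K (End K V × End K M)}

/-- **One step between two stable subspaces.** `J` is a set of nilpotent elements which is stable
under multiplication from the left. -/
theorem exists_step_rel [FiniteDimensional K M] (hnil : ∀ x ∈ A, x.1 = 0 → IsNilpotent x.2)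
    {p : End K V} (hp : ∀ x ∈ A, p * x.1 = x.1 * p) {M₀ M₁ : Submodule K M}
    (hM₀ : ∀ x ∈ A, ∀ m ∈ M₀, x.2 m ∈ M₀) (hM₁ : ∀ x ∈ A, ∀ m ∈ M₁, x.2 m ∈ M₁)
    (hlt : M₀ < M₁)
    (J : Set (End K V × End K M)) (hJA : ∀ x ∈ J, x ∈ A) (hJn : ∀ x ∈ J, IsNilpotent x.2)
    (hJl : ∀ a ∈ A, ∀ x ∈ J, a * x ∈ J) :
    ∃ N₀ : Submodule K M, (∀ x ∈ A, ∀ m ∈ N₀, x.2 m ∈ N₀) ∧ M₀ < N₀ ∧ N₀ ≤ M₁ ∧
      ∃ g ∈ A, g * g = g ∧ ∃ z ∈ N₀, z ∉ M₀ ∧ g.2 z = z ∧ N₀ = cyc A M₀ z ∧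
        (∀ x ∈ A, x.2 z ∈ M₀ → LinearMap.trace K V (p * (g.1 * x.1)) = 0) ∧
        ∀ x ∈ J, x.2 z ∈ M₀ := by
  classical
  let Q : ℕ → Prop := fun n => ∃ N₀ : Submodule K M, (∀ x ∈ A, ∀ m ∈ N₀, x.2 m ∈ N₀) ∧ M₀ < N₀ ∧
    N₀ ≤ M₁ ∧ finrank K N₀ = n
  have hQ : ∃ n, Q n := ⟨_, M₁, hM₁, hlt, le_rfl, rfl⟩
  obtain ⟨N₀, hN₀, hMN, hN₁, hn⟩ := Nat.find_spec hQ
  have hmin : ∀ N : Submodule K M, (∀ x ∈ A, ∀ m ∈ N, x.2 m ∈ N) → M₀ < N → N ≤ N₀ → N = N₀ := by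
    intro N hN hMN' hle
    by_contra hne
    have h1 : finrank K N < finrank K N₀ :=
      Submodule.finrank_lt_finrank_of_lt (lt_of_le_of_ne hle hne)
    rw [hn] at h1
    exact Nat.find_min hQ h1 ⟨N, hN, hMN', hle.trans hN₁, rfl⟩
  have hcyc : ∀ w ∈ N₀, w ∉ M₀ → cyc A M₀ w = N₀ := by
    intro w hw hw'
    refine hmin _ (cyc_stable hM₀ w) ?_ ?_
    · refine lt_of_le_of_ne (le_cyc M₀ w) fun h => hw' ?_
      rw [h]
      exact self_mem_cyc M₀ w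
    · intro v hv
      obtain ⟨m, hm, x, hx, rfl⟩ := mem_cyc.1 hv
      exact N₀.add_mem (hMN.le hm) (hN₀ x hx w hw)
  obtain ⟨g, hg, hgg, z, hzN, hzM, hgz, key⟩ :=
    exists_key_rel hnil hp hM₀ hN₀ (fun h => (lt_irrefl _ (lt_of_lt_of_le hMN h)))
  refine ⟨N₀, hN₀, hMN, hN₁, g, hg, hgg, z, hzN, hzM, hgz, (hcyc z hzN hzM).symm, key, ?_⟩
  intro x hx
  by_contra hw
  have h1 := hcyc (x.2 z) (hN₀ x (hJA x hx) z hzN) hw
  have h2 : z ∈ cyc A M₀ (x.2 z) := by rw [h1]; exact hzN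
  obtain ⟨m, hm, a, ha, hma⟩ := mem_cyc.1 h2
  have h3 : IsNilpotent (a * x).2 := hJn _ (hJl a ha x hx)
  apply hzM
  refine mem_of_nil (f := (a * x).2) (fun m hm => hM₀ _ (Subalgebra.mul_mem _ ha (hJA x hx)) m hm)
    h3 ?_
  have h4 : z - (a * x).2 z = m := by
    have h5 : (a * x).2 z = a.2 (x.2 z) := rfl
    rw [h5]
    nth_rewrite 1 [← hma]
    abel
  rw [h4]
  exact hm

end Pair

variable {k : Type u} [Field k] {𝒱 : VarClass k} {ops : CycleOps 𝒱}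
  {W : WeilCohomology.{u, v} ops} {T : CycTheory.{u, v, w} W} {X Y Z P Q : 𝒱.Obj}

/-- `Z` is a direct factor of `P`: `u ∘ v` is the identity of `Z`, on the cohomology and on `T`. -/
structure Retract (T : CycTheory.{u, v, w} W) (P Z : 𝒱.Obj)
    (a : (W.H P →ₗ[W.K] W.H Z) × (T.M P →ₗ[W.K] T.M Z))
    (b : (W.H Z →ₗ[W.K] W.H P) × (T.M Z →ₗ[W.K] T.M P)) : Prop where
  left : a ∈ corrPairs T P Z
  right : b ∈ corrPairs T Z P
  fst : a.1 ∘ₗ b.1 = LinearMap.id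
  snd : a.2 ∘ₗ b.2 = LinearMap.id

lemma Retract.apply {a : (W.H P →ₗ[W.K] W.H Z) × (T.M P →ₗ[W.K] T.M Z)}
    {b : (W.H Z →ₗ[W.K] W.H P) × (T.M Z →ₗ[W.K] T.M P)} (h : Retract T P Z a b) (t : T.M Z) :
    a.2 (b.2 t) = t := congrArg (fun f : T.M Z →ₗ[W.K] T.M Z => f t) h.snd

lemma Retract.refl (T : CycTheory.{u, v, w} W) (P : 𝒱.Obj) :
    Retract T P P (LinearMap.id, LinearMap.id) (LinearMap.id, LinearMap.id) :=
  ⟨corrPairs.one T P, corrPairs.one T P, rfl, rfl⟩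

lemma Retract.trans {a : (W.H P →ₗ[W.K] W.H Z) × (T.M P →ₗ[W.K] T.M Z)}
    {b : (W.H Z →ₗ[W.K] W.H P) × (T.M Z →ₗ[W.K] T.M P)} (h : Retract T P Z a b)
    {a' : (W.H Z →ₗ[W.K] W.H Y) × (T.M Z →ₗ[W.K] T.M Y)}
    {b' : (W.H Y →ₗ[W.K] W.H Z) × (T.M Y →ₗ[W.K] T.M Z)} (h' : Retract T Z Y a' b') :
    Retract T P Y (a'.1 ∘ₗ a.1, a'.2 ∘ₗ a.2) (b.1 ∘ₗ b'.1, b.2 ∘ₗ b'.2) := by
  refine ⟨corrPairs.comp h'.left h.left, corrPairs.comp h.right h'.right, ?_, ?_⟩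
  · change (a'.1 ∘ₗ a.1) ∘ₗ (b.1 ∘ₗ b'.1) = LinearMap.id
    have e : (a'.1 ∘ₗ a.1) ∘ₗ (b.1 ∘ₗ b'.1) = a'.1 ∘ₗ (a.1 ∘ₗ b.1) ∘ₗ b'.1 := by
      simp only [LinearMap.comp_assoc]
    rw [e, h.fst, LinearMap.id_comp, h'.fst]
  · change (a'.2 ∘ₗ a.2) ∘ₗ (b.2 ∘ₗ b'.2) = LinearMap.id
    have e : (a'.2 ∘ₗ a.2) ∘ₗ (b.2 ∘ₗ b'.2) = a'.2 ∘ₗ (a.2 ∘ₗ b.2) ∘ₗ b'.2 := by
      simp only [LinearMap.comp_assoc]
    rw [e, h.snd, LinearMap.id_comp, h'.snd]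

/-- **Upper bound for one step on a direct factor.** -/
theorem finrank_step' {a : (W.H P →ₗ[W.K] W.H Z) × (T.M P →ₗ[W.K] T.M Z)}
    {b : (W.H Z →ₗ[W.K] W.H P) × (T.M Z →ₗ[W.K] T.M P)} (hab : Retract T P Z a b)
    [FiniteDimensional W.K (T.M Z)] [FiniteDimensional W.K (T.M P)] {M₀ : Submodule W.K (T.M P)}
    (hM₀ : ∀ x ∈ corrPairs T P P, ∀ m ∈ M₀, x.2 m ∈ M₀)
    {g : Module.End W.K (W.H P) × Module.End W.K (T.M P)} (hg : g ∈ corrPairs T P P)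
    {z : T.M P} (hgz : g.2 z = z)
    (key : ∀ x ∈ corrPairs T P P, x.1 ∈ (algSys W).NOp P P → x.2 z ∈ M₀) :
    finrank W.K ((cyc (pairAlg T P) M₀ z).comap b.2) ≤
      finrank W.K (M₀.comap b.2) + (algSys W).r P g.1 Z := by
  set S := algSys W with hS
  set N₀ := cyc (pairAlg T P) M₀ z with hN₀
  set MZ := M₀.comap b.2 with hMZ
  set NZ := N₀.comap b.2 with hNZ
  have hM : MZ ≤ NZ := Submodule.comap_mono (le_cyc M₀ z)
  have hr := S.rk_BO_r (P := P) (Z := Z) (g := g.1) (Sys.Op.ev (corrPairs.op hg))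
  rw [← rk_flip, rk] at hr
  have h1 := LinearMap.finrank_range_add_finrank_ker (MZ.mkQ.domRestrict NZ)
  have h2 : finrank W.K (LinearMap.ker (MZ.mkQ.domRestrict NZ)) = finrank W.K MZ := by
    have e : LinearMap.ker (MZ.mkQ.domRestrict NZ) = MZ.submoduleOf NZ := by
      ext x
      rw [LinearMap.mem_ker, LinearMap.domRestrict_apply, Submodule.mkQ_apply,
        Submodule.Quotient.mk_eq_zero]
      rfl
    rw [e]
    exact (Submodule.submoduleOfEquivOfLe hM).finrank_eq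
  let C : Submodule W.K ((W.H P →ₗ[W.K] W.H Z) × (T.M P →ₗ[W.K] T.M Z)) := corrPairs T P Z
  let α : C →ₗ[W.K] (T.M Z ⧸ MZ) := MZ.mkQ ∘ₗ (LinearMap.applyₗ z :
    (T.M P →ₗ[W.K] T.M Z) →ₗ[W.K] T.M Z) ∘ₗ LinearMap.snd W.K _ _ ∘ₗ C.subtype
  let β₀ : C →ₗ[W.K] S.Op P Z :=
    { toFun := fun x => ⟨x.1.1, corrPairs.op x.2⟩
      map_add' := fun x y => rfl
      map_smul' := fun c x => rfl }
  let β := (S.BO P Z g.1 LinearMap.id).flip ∘ₗ β₀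
  have h3 : LinearMap.range (MZ.mkQ.domRestrict NZ) ≤ LinearMap.range α := by
    rintro _ ⟨⟨t, ht⟩, rfl⟩
    obtain ⟨m, hm, x, hx, hmx⟩ := mem_cyc.1 (show b.2 t ∈ cyc (pairAlg T P) M₀ z from ht)
    have hx' : x ∈ corrPairs T P P := hx
    refine ⟨⟨(a.1 ∘ₗ x.1, a.2 ∘ₗ x.2), corrPairs.comp hab.left hx'⟩, ?_⟩
    change MZ.mkQ (a.2 (x.2 z)) = MZ.mkQ t
    have h4 : t = a.2 m + a.2 (x.2 z) := by
      rw [← map_add, hmx, hab.apply]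
    have h5 : a.2 m ∈ MZ := by
      have h6 := hM₀ _ (corrPairs.comp hab.right hab.left) m hm
      exact h6
    rw [h4, map_add, Submodule.mkQ_apply MZ (a.2 m), (Submodule.Quotient.mk_eq_zero MZ).2 h5,
      zero_add]
  have h4 : LinearMap.ker β ≤ LinearMap.ker α := by
    rintro ⟨y, hy⟩ hβ
    rw [LinearMap.mem_ker] at hβ ⊢
    change MZ.mkQ (y.2 z) = 0
    rw [Submodule.mkQ_apply, Submodule.Quotient.mk_eq_zero]
    change b.2 (y.2 z) ∈ M₀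
    have hy' : y ∈ corrPairs T P Z := hy
    have h5 : (b.1 ∘ₗ (y.1 ∘ₗ g.1), b.2 ∘ₗ (y.2 ∘ₗ g.2)) ∈ corrPairs T P P :=
      corrPairs.comp hab.right (corrPairs.comp hy' hg)
    have h6 : b.1 ∘ₗ (y.1 ∘ₗ g.1) ∈ S.NOp P P := by
      refine mem_NOp_of_trace S (corrPairs.op h5) fun w hw => ?_
      have h7 := congrArg (fun f : S.Op Z P →ₗ[W.K] W.K => f ⟨w ∘ₗ b.1,
        Sys.Op.comp hw (corrPairs.op hab.right)⟩) hβ
      change (S.BO P Z g.1 LinearMap.id).flip (β₀ ⟨y, hy⟩) ⟨w ∘ₗ b.1, _⟩ = 0 at h7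
      rw [LinearMap.flip_apply, Sys.BO_apply] at h7
      change LinearMap.trace W.K (W.H P) (par (W.isInternal P) ∘ₗ g.1 ∘ₗ (w ∘ₗ b.1) ∘ₗ
        LinearMap.id ∘ₗ y.1) = 0 at h7
      rw [LinearMap.id_comp] at h7
      have hc : par (W.isInternal P) ∘ₗ (b.1 ∘ₗ y.1) = (b.1 ∘ₗ y.1) ∘ₗ par (W.isInternal P) :=
        (Sys.Op.ev (corrPairs.op (corrPairs.comp hab.right hy'))).par_comm
      have e1 : par (W.isInternal P) ∘ₗ (b.1 ∘ₗ (y.1 ∘ₗ g.1)) ∘ₗ w =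
          (b.1 ∘ₗ y.1) ∘ₗ (par (W.isInternal P) ∘ₗ g.1 ∘ₗ w) := by
        have e2 : par (W.isInternal P) ∘ₗ (b.1 ∘ₗ (y.1 ∘ₗ g.1)) ∘ₗ w =
            (par (W.isInternal P) ∘ₗ (b.1 ∘ₗ y.1)) ∘ₗ (g.1 ∘ₗ w) := by
          simp only [LinearMap.comp_assoc]
        rw [e2, hc]
        simp only [LinearMap.comp_assoc]
      rw [e1, LinearMap.trace_comp_comm']
      have e3 : (par (W.isInternal P) ∘ₗ g.1 ∘ₗ w) ∘ₗ (b.1 ∘ₗ y.1) =
          par (W.isInternal P) ∘ₗ g.1 ∘ₗ (w ∘ₗ b.1) ∘ₗ y.1 := by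
        simp only [LinearMap.comp_assoc]
      rw [e3]
      exact h7
    have h7 := key _ h5 h6
    change b.2 (y.2 (g.2 z)) ∈ M₀ at h7
    rwa [hgz] at h7
  have h5 : finrank W.K (LinearMap.range α) ≤ finrank W.K (LinearMap.range β) := by
    have e1 := LinearMap.finrank_range_add_finrank_ker (V := C) (V₂ := T.M Z ⧸ MZ) α
    have e2 := LinearMap.finrank_range_add_finrank_ker (V := C) (V₂ := S.Op Z P →ₗ[W.K] W.K) β
    have e3 := Submodule.finrank_mono h4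
    omega
  have h6 : finrank W.K (LinearMap.range β) ≤
      finrank W.K (LinearMap.range (S.BO P Z g.1 LinearMap.id).flip) :=
    Submodule.finrank_mono (LinearMap.range_comp_le_range _ _)
  have h7 := Submodule.finrank_mono h3
  rw [h2] at h1
  rw [hr] at h6
  omega

end Pool.Agent.Q56.XL
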