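import Pool.Agent.Q56.XL.Alg
import Pool.Agent.Q56.ZO.Main

/-!
# Composition series of theories on which algebraic correspondences act
-/

set_option autoImplicit false

open CategoryTheory AlgebraicGeometry Polynomial

universe u v w

namespace Pool.Agent.Q56.XL

open Module
open Pool.Agent.H914 Pool.Agent.H914.VarClass Pool.Agent.H914.VarClass.Obj
  Pool.Agent.H914.WeilCohomology Pool.Agent.Y133.Half Pool.Agent.Q55.Rate
  Pool.Agent.H281R3.HT Pool.Agent.Q56.ZO


variable {k : Type u} [Field k] {𝒱 : VarClass k} {ops : CycleOps 𝒱}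
  {W : WeilCohomology.{u, v} ops} {T : CycTheory.{u, v, w} W} {X Y Z P Q : 𝒱.Obj}

/-- An operator which is orthogonal to all operators is numerically trivial. -/
lemma mem_NOp_of_trace (S : Sys W) {u : Module.End W.K (W.H P)} (hu : u ∈ S.Op P P)
    (h : ∀ w ∈ S.Op P P, LinearMap.trace W.K (W.H P) (par (W.isInternal P) ∘ₗ u ∘ₗ w) = 0) :
    u ∈ S.NOp P P := by
  obtain ⟨c, hc, rfl⟩ := Sys.mem_Op.1 hu
  refine Sys.NOp.corr ⟨hc, fun d hd => ?_⟩
  have h1 := h _ (Sys.Op.corr (S := S) (S.map (swap P P) hd))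
  rw [trace_corr_corr, swap_swap] at h1
  exact h1

/-- The elements of `T(Z)` which are mapped to `M₀` by all correspondences to `P`. -/
def pre (T : CycTheory.{u, v, w} W) (P Z : 𝒱.Obj) (M₀ : Submodule W.K (T.M P)) :
    Submodule W.K (T.M Z) where
  carrier := {v | ∀ x ∈ corrPairs T Z P, x.2 v ∈ M₀}
  zero_mem' := fun x _ => by rw [map_zero]; exact M₀.zero_mem
  add_mem' := fun {a b} ha hb x hx => by rw [map_add]; exact M₀.add_mem (ha x hx) (hb x hx)
  smul_mem' := fun c a ha x hx => by rw [map_smul]; exact M₀.smul_mem c (ha x hx)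

lemma pre_mono {M₀ N₀ : Submodule W.K (T.M P)} (h : M₀ ≤ N₀) : pre T P Z M₀ ≤ pre T P Z N₀ :=
  fun _ hv x hx => h (hv x hx)

lemma val_mem_pre {N₀ : Submodule W.K (T.M P)}
    (hN₀ : ∀ x ∈ corrPairs T P P, ∀ m ∈ N₀, x.2 m ∈ N₀) {z : T.M P} (hz : z ∈ N₀)
    {v : (algSys W).Op P Z} {n : T.M Z} (h : (v, n) ∈ valRel T P Z z) : n ∈ pre T P Z N₀ := by
  obtain ⟨f, hf, hfz⟩ := h
  intro x hx
  have h1 := hN₀ _ (corrPairs.comp hx hf) z hz
  change x.2 (f z) ∈ N₀ at h1
  have h2 : f z = n := hfz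
  rwa [h2] at h1

/-- **Lower bound for one step.** -/
theorem rank_step {M₀ N₀ : Submodule W.K (T.M P)}
    (hN₀ : ∀ x ∈ corrPairs T P P, ∀ m ∈ N₀, x.2 m ∈ N₀) (hle : M₀ ≤ N₀)
    {g : Module.End W.K (W.H P)} (hg : g ∈ (algSys W).Op P P) {z : T.M P} (hz : z ∈ N₀)
    (key : ∀ x ∈ corrPairs T P P, x.2 z ∈ M₀ →
      LinearMap.trace W.K (W.H P) (par (W.isInternal P) * (g * x.1)) = 0) (Z : 𝒱.Obj) :
    (((algSys W).r P g Z : ℕ) : Cardinal.{w}) + Module.rank W.K (pre T P Z M₀) ≤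
      Module.rank W.K (pre T P Z N₀) := by
  set S := algSys W with hS
  set V1 := pre T P Z N₀ with hV1
  set V0 := pre T P Z M₀ with hV0
  have hV : V0 ≤ V1 := pre_mono hle
  set U := V0.submoduleOf V1 with hU
  have hU' : Module.rank W.K U = Module.rank W.K V0 :=
    (Submodule.submoduleOfEquivOfLe hV).rank_eq
  have hq := Submodule.rank_quotient_add_rank U
  rw [hU'] at hq
  rw [← hq]
  refine add_le_add ?_ le_rfl
  have hr := S.rk_BO_r (P := P) (Z := Z) (g := g) (Sys.Op.ev hg)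
  rw [← rk_flip, rk] at hr
  set R : Submodule W.K (S.Op P Z × (V1 ⧸ U)) :=
    ((valRel T P Z z).comap (LinearMap.prodMap LinearMap.id V1.subtype)).map
      (LinearMap.prodMap LinearMap.id U.mkQ) with hR
  have h := rank_ge_of_map (B := S.Op P Z) (N := V1 ⧸ U) (S.BO P Z g LinearMap.id).flip R
    (fun v => ?_) (fun v hv => ?_)
  · rw [hr] at h
    exact h
  · obtain ⟨n, hn⟩ := valRel.total (T := T) (z := z) v
    exact ⟨U.mkQ ⟨n, val_mem_pre hN₀ hz hn⟩, (v, ⟨n, val_mem_pre hN₀ hz hn⟩), hn, rfl⟩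
  · obtain ⟨⟨v', n⟩, hvn, he⟩ := hv
    have e1 : v' = v := congrArg Prod.fst he
    have e2 : U.mkQ n = 0 := congrArg Prod.snd he
    subst e1
    have e3 : (n : T.M Z) ∈ V0 := by
      rw [Submodule.mkQ_apply, Submodule.Quotient.mk_eq_zero] at e2
      exact e2
    obtain ⟨f, hf, hfz⟩ := hvn
    have hfz' : f z = (n : T.M Z) := hfz
    apply LinearMap.ext
    intro u
    obtain ⟨f', hf'⟩ := corrPairs.lift T u.2
    have h5 := corrPairs.comp hf' hf
    have h6 := key _ h5 (by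
      change f' (f z) ∈ M₀
      rw [hfz']
      exact e3 _ hf')
    rw [LinearMap.flip_apply, Sys.BO_apply]
    exact h6

/-- **Upper bound for one step.** -/
theorem finrank_step [FiniteDimensional W.K (T.M P)] {M₀ : Submodule W.K (T.M P)}
    {g : Module.End W.K (W.H P) × Module.End W.K (T.M P)} (hg : g ∈ corrPairs T P P)
    {z : T.M P} (hgz : g.2 z = z) (hM : M₀ ≤ cyc (pairAlg T P) M₀ z)
    (key : ∀ x ∈ corrPairs T P P, x.1 ∈ (algSys W).NOp P P → x.2 z ∈ M₀) :
    finrank W.K (cyc (pairAlg T P) M₀ z) ≤ finrank W.K M₀ + (algSys W).r P g.1 P := by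
  set S := algSys W with hS
  set N₀ := cyc (pairAlg T P) M₀ z with hN₀
  have hr := S.rk_BO_r (P := P) (Z := P) (g := g.1) (Sys.Op.ev (corrPairs.op hg))
  rw [← rk_flip, rk] at hr
  have h1 := LinearMap.finrank_range_add_finrank_ker (M₀.mkQ.domRestrict N₀)
  have h2 : finrank W.K (LinearMap.ker (M₀.mkQ.domRestrict N₀)) = finrank W.K M₀ := by
    have e : LinearMap.ker (M₀.mkQ.domRestrict N₀) = M₀.submoduleOf N₀ := by
      ext x
      rw [LinearMap.mem_ker, LinearMap.domRestrict_apply, Submodule.mkQ_apply,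
        Submodule.Quotient.mk_eq_zero]
      rfl
    rw [e]
    exact (Submodule.submoduleOfEquivOfLe hM).finrank_eq
  let C : Submodule W.K (Module.End W.K (W.H P) × Module.End W.K (T.M P)) := corrPairs T P P
  let α : C →ₗ[W.K] (T.M P ⧸ M₀) := M₀.mkQ ∘ₗ (LinearMap.applyₗ z : Module.End W.K (T.M P) →ₗ[W.K]
    T.M P) ∘ₗ LinearMap.snd W.K _ _ ∘ₗ C.subtype
  let β₀ : C →ₗ[W.K] S.Op P P :=
    { toFun := fun x => ⟨x.1.1, corrPairs.op x.2⟩
      map_add' := fun x y => rfl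
      map_smul' := fun c x => rfl }
  let β := (S.BO P P g.1 LinearMap.id).flip ∘ₗ β₀
  have h3 : LinearMap.range (M₀.mkQ.domRestrict N₀) ≤ LinearMap.range α := by
    rintro _ ⟨⟨v, hv⟩, rfl⟩
    obtain ⟨m, hm, x, hx, rfl⟩ := mem_cyc.1 hv
    refine ⟨⟨x, hx⟩, ?_⟩
    change M₀.mkQ (x.2 z) = M₀.mkQ (m + x.2 z)
    rw [map_add, Submodule.mkQ_apply M₀ m, (Submodule.Quotient.mk_eq_zero M₀).2 hm, zero_add]
  have h4 : LinearMap.ker β ≤ LinearMap.ker α := by
    rintro ⟨x, hx⟩ hβ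
    rw [LinearMap.mem_ker] at hβ ⊢
    change M₀.mkQ (x.2 z) = 0
    rw [Submodule.mkQ_apply, Submodule.Quotient.mk_eq_zero]
    have hx' : x ∈ corrPairs T P P := hx
    have h5 : x * g ∈ corrPairs T P P := corrPairs.comp (T := T) hx' hg
    have h6 : (x * g).1 ∈ S.NOp P P := by
      refine mem_NOp_of_trace S (corrPairs.op h5) fun w hw => ?_
      have h7 := congrArg (fun f : S.Op P P →ₗ[W.K] W.K => f ⟨w, hw⟩) hβ
      change (S.BO P P g.1 LinearMap.id).flip (β₀ ⟨x, hx⟩) ⟨w, hw⟩ = 0 at h7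
      rw [LinearMap.flip_apply, Sys.BO_apply] at h7
      change LinearMap.trace W.K (W.H P) (par (W.isInternal P) * (g.1 * (w * (1 * x.1)))) = 0
        at h7
      rw [one_mul] at h7
      change LinearMap.trace W.K (W.H P) (par (W.isInternal P) * ((x.1 * g.1) * w)) = 0
      have hc : par (W.isInternal P) * x.1 = x.1 * par (W.isInternal P) :=
        (Sys.Op.ev (corrPairs.op hx')).par_comm
      have e1 : par (W.isInternal P) * ((x.1 * g.1) * w) =
          x.1 * (par (W.isInternal P) * (g.1 * w)) := by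
        rw [← mul_assoc, ← mul_assoc, hc, mul_assoc, mul_assoc]
      rw [e1, LinearMap.trace_mul_comm, mul_assoc, mul_assoc]
      exact h7
    have h7 := key _ h5 h6
    have h8 : (x * g).2 z = x.2 z := by
      change x.2 (g.2 z) = x.2 z
      rw [hgz]
    rwa [h8] at h7
  have h5 : finrank W.K (LinearMap.range α) ≤ finrank W.K (LinearMap.range β) := by
    have e1 := LinearMap.finrank_range_add_finrank_ker (V := C) (V₂ := T.M P ⧸ M₀) α
    have e2 := LinearMap.finrank_range_add_finrank_ker (V := C) (V₂ := S.Op P P →ₗ[W.K] W.K) β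
    have e3 := Submodule.finrank_mono h4
    omega
  have h6 : finrank W.K (LinearMap.range β) ≤
      finrank W.K (LinearMap.range (S.BO P P g.1 LinearMap.id).flip) :=
    Submodule.finrank_mono (LinearMap.range_comp_le_range _ _)
  have h7 := Submodule.finrank_mono h3
  rw [h2] at h1
  rw [hr] at h6
  omega

/-- Numerically trivial pairs are nilpotent. -/
lemma nil_of_num (hW : ∀ u ∈ (algSys W).NOp P P, IsNilpotent (u : Module.End W.K (W.H P)))
    (hnil : ∀ x ∈ corrPairs T P P, x.1 = 0 → IsNilpotent (x.2 : Module.End W.K (T.M P)))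
    {x : Module.End W.K (W.H P) × Module.End W.K (T.M P)} (hx : x ∈ corrPairs T P P)
    (hx1 : x.1 ∈ (algSys W).NOp P P) : IsNilpotent x.2 := by
  obtain ⟨N, hN⟩ := hW _ hx1
  have h1 : x ^ N ∈ pairAlg T P := Subalgebra.pow_mem _ hx N
  have h2 : (x ^ N).1 = 0 := by rw [Prod.pow_fst, hN]
  obtain ⟨M, hM⟩ := hnil _ h1 h2
  refine ⟨N * M, ?_⟩
  rw [pow_mul, ← Prod.pow_snd]
  exact hM

/-- **The composition series.** -/
theorem exists_chain_from [FiniteDimensional W.K (T.M P)]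
    (hW : ∀ u ∈ (algSys W).NOp P P, IsNilpotent (u : Module.End W.K (W.H P)))
    (hnil : ∀ x ∈ corrPairs T P P, x.1 = 0 → IsNilpotent (x.2 : Module.End W.K (T.M P))) :
    ∀ (n : ℕ) (M₀ : Submodule W.K (T.M P)), (∀ x ∈ corrPairs T P P, ∀ m ∈ M₀, x.2 m ∈ M₀) →
      finrank W.K (T.M P) - finrank W.K M₀ = n →
      ∃ L : List (Module.End W.K (W.H P)),
        (∀ g ∈ L, g ∈ (algSys W).Op P P ∧ g ∘ₗ g = g ∧ g ≠ 0 ∧
          ∃ f : Module.End W.K (T.M P), (g, f) ∈ corrPairs T P P ∧ f * f = f ∧ f ≠ 0) ∧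
        (∀ Z : 𝒱.Obj, (((L.map fun g => (algSys W).r P g Z).sum : ℕ) : Cardinal.{w}) +
          Module.rank W.K (pre T P Z M₀) ≤ Module.rank W.K (T.M Z)) ∧
        finrank W.K (T.M P) ≤ finrank W.K M₀ + (L.map fun g => (algSys W).r P g P).sum := by
  intro n
  induction n using Nat.strong_induction_on with
  | _ n ih =>
  intro M₀ hM₀ hn
  by_cases htop : M₀ = ⊤
  · refine ⟨[], by simp, fun Z => ?_, ?_⟩
    · simp only [List.map_nil, List.sum_nil, Nat.cast_zero, zero_add]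
      exact Submodule.rank_le _
    · rw [htop, finrank_top]
      exact Nat.le_add_right _ _
  obtain ⟨N₀, hN₀, hlt, g, hg, hgg, z, hzN, hzM, hgz, hcyc, key, hJ⟩ :=
    exists_step (A := pairAlg T P) hnil (p := par (W.isInternal P))
      (fun x hx => (Sys.Op.ev (corrPairs.op hx)).par_comm) hM₀ htop
      {x | x ∈ corrPairs T P P ∧ x.1 ∈ (algSys W).NOp P P} (fun x hx => hx.1)
      (fun x hx => nil_of_num hW hnil hx.1 hx.2)
      (fun a ha x hx => ⟨corrPairs.comp (T := T) ha hx.1,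
        Sys.NOp.comp_left (corrPairs.op ha) hx.2⟩)
  have h1 : finrank W.K M₀ < finrank W.K N₀ := Submodule.finrank_lt_finrank_of_lt hlt
  have h2 : finrank W.K N₀ ≤ finrank W.K (T.M P) := Submodule.finrank_le _
  obtain ⟨L, hL, hL1, hL2⟩ := ih _ (by omega) N₀ hN₀ rfl
  have hg' : g ∈ corrPairs T P P := hg
  refine ⟨g.1 :: L, ?_, fun Z => ?_, ?_⟩
  · intro g' hg''
    rcases List.mem_cons.1 hg'' with rfl | h
    · have hg2 : g.2 ≠ 0 := fun h3 => by
        apply hzM
        rw [← hgz, h3]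
        exact M₀.zero_mem
      exact ⟨corrPairs.op hg', congrArg Prod.fst hgg,
        fun h0 => hg2 (idem_nil (congrArg Prod.snd hgg) (hnil g hg' h0)),
        g.2, hg', congrArg Prod.snd hgg, hg2⟩
    · exact hL g' h
  · rw [List.map_cons, List.sum_cons, Nat.cast_add]
    have h3 := rank_step (T := T) (P := P) hN₀ hlt.le (corrPairs.op hg') hzN key Z
    calc _ = (((L.map fun g => (algSys W).r P g Z).sum : ℕ) : Cardinal.{w}) +
          ((((algSys W).r P g.1 Z : ℕ) : Cardinal.{w}) + Module.rank W.K (pre T P Z M₀)) := by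
          rw [← add_assoc, add_comm (((L.map fun g => (algSys W).r P g Z).sum : ℕ) : Cardinal.{w})]
      _ ≤ (((L.map fun g => (algSys W).r P g Z).sum : ℕ) : Cardinal.{w}) +
          Module.rank W.K (pre T P Z N₀) := add_le_add le_rfl h3
      _ ≤ _ := hL1 Z
  · rw [List.map_cons, List.sum_cons]
    have h3 := finrank_step (T := T) (P := P) (M₀ := M₀) hg' hgz (le_cyc M₀ z)
      (fun x hx hx1 => hJ x ⟨hx, hx1⟩)
    rw [← hcyc] at h3
    omega

/-- **The composition series of `T(P)`.** -/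
theorem exists_chain [FiniteDimensional W.K (T.M P)]
    (hW : ∀ u ∈ (algSys W).NOp P P, IsNilpotent (u : Module.End W.K (W.H P)))
    (hnil : ∀ x ∈ corrPairs T P P, x.1 = 0 → IsNilpotent (x.2 : Module.End W.K (T.M P))) :
    ∃ L : List (Module.End W.K (W.H P)),
      (∀ g ∈ L, g ∈ (algSys W).Op P P ∧ g ∘ₗ g = g ∧ g ≠ 0 ∧
        ∃ f : Module.End W.K (T.M P), (g, f) ∈ corrPairs T P P ∧ f * f = f ∧ f ≠ 0) ∧
      (∀ Z : 𝒱.Obj, (((L.map fun g => (algSys W).r P g Z).sum : ℕ) : Cardinal.{w}) ≤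
        Module.rank W.K (T.M Z)) ∧
      finrank W.K (T.M P) ≤ (L.map fun g => (algSys W).r P g P).sum := by
  obtain ⟨L, h1, h2, h3⟩ := exists_chain_from hW hnil _ (⊥ : Submodule W.K (T.M P))
    (fun x _ m hm => by
      rw [(Submodule.mem_bot _).1 hm, map_zero]
      exact Submodule.zero_mem _) rfl
  refine ⟨L, h1, fun Z => le_trans ?_ (h2 Z), ?_⟩
  · exact le_self_add
  · rwa [finrank_bot, zero_add] at h3

end Pool.Agent.Q56.XL
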